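import Pool.Agent.Q282.UV.Fin

/-!
# Almost all complete intersections have no Tate classes in common with all smaller varieties, over infinite fields of
characteristic `p`

Let `k` be a finite field with `q` elements and `S` an affine variety over `k`, in the affine space with the coordinates `t_1, ..., t_M`,
with a quasi-finite map to the affine space of dimension `e ≥ 1`; its function field `K` can be any finitely generated infinite field
of characteristic `p`. Let `O = k[t_1, ..., t_M]`.

**The complete intersections.** Let `s ≥ 0` linear subspaces of dimension `g ≤ D / 2` of the projective space of dimension `D + r` be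
given by linear equations `l` over `O`, and let the forms `f_{a,j}` span, for `a = 1, ..., r`, the forms of degree `d_a ≥ s + 2 ν - 1` that
vanish on them. For `c = (c_{a,j})` in `O` let `V_c` be the complete intersection `{∑_j c_{1,j} f_{1,j} = ... = ∑_j c_{r,j} f_{r,j} = 0}`, a
variety of dimension `D` over `K` with a model over the open set `U_c = {x : Δ(x, c(x)) ≠ 0}` of `S` (for smooth fibres `Δ` is a multiple
of the discriminant).

**The other varieties.** Let `Y` be any variety over `K` (smooth or not, proper or not) with a model over `S`, and let `η m x j` be the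
eigenvalues of Frobenius on the cohomology with compact support `H_c^j(Y_x)` of the fibres over the points `x` of `S` with
coordinates in the extension `F m` of degree `m`: at most `β` numbers of absolute value at most `q ^ (m j / 2)` (Deligne). The edge of
the `L`-function of `H_c^j(Y)` is the multiset `Γ_j` of the eigenvalues of weight `j` of Frobenius on the coinvariants of the geometric
Galois group on `H_c^j(Y)`, multiplied by `q ^ e`: the sum of the traces over the points of degree `m` is the sum of the `m`-th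
powers of the numbers in `Γ_j`, up to an error of relative size `q ^ (- m / 2)`. If `Y` is smooth of dimension `y`, the classes in
`H^{2 i}(Y)(i)` that are invariant under the Galois group of `K` are dual to a part of it, that of the numbers `q ^ (j / 2 + e)` in `Γ_j`,
`j = 2 (y - i)`.

**The theorem.** For every `δ > 0`, every degree `n` and all `N`: outside a set of complete intersections of proportion
`C X q ^ (-(1 - δ) e N / 2)` of those with coefficients of degree at most `N`, the edge of the `L`-function of `H_c^n(V^ν × Y)` is as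
expected for all varieties `Y` of any given set of `X` varieties at the same time; the set can depend on `N`, and if `e = 1`, it can be the
set of all the members of a family with coefficients of degree at most a constant times `N`. As expected means: it has the
same number of elements as the multiset `P` of the numbers `q ^ a γ` with `γ` in `Γ_{n - 2 a}`, each `T_a` times, where `T_a` is the
number of the products of codimension `a` on `V^ν` of hyperplane classes, diagonals and, if `2 g = D`, the given subspaces; it has no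
number of a given finite set `R` with a larger multiplicity; and it is equal to `P` if it is integral. It is assumed that `P` is
integral, as for all smooth and proper `Y`, or belongs to a given finite set. So, for almost all `V`, the product of `V^ν` with any variety
`Y` of smaller height has only those Tate classes, in all degrees, that come from the Tate classes of `Y` and from these
classes of `V^ν`: if the conjecture of Tate and the semisimplicity hold for `Y`, the conjecture holds for `V^ν × Y`.

Proof. For a point `x` of degree `m ≤ (N + 1) / 2` the values `c(x)` are uniformly distributed and for two points that are not conjugate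
they are independent, the values of the equations at `2 ν` points of the fibre are independent; the trace of `Y` at `x` is a
weight in the sums over the points, so the mean and the variance over the box of the sum over the points of degree `m`
can be computed. The numbers on the edge are detected by power sums in windows of bounded length, by the theorem of Turan, by Fejer
kernels, and by the finiteness of the set of the integral multisets.
-/

set_option autoImplicit false

namespace Pool.Agent.Results.MP_2a05c8_ag.AlmostAllTimesAllSmaller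

open Finset MvPolynomial
open scoped LinearAlgebra.Projectivization

/-- The values of polynomials in `t_1, ..., t_M` with coefficients in `k` at the point `x` with coordinates in the extension `F`. -/
noncomputable def value {k F : Type} [Field k] [Field F] [Algebra k F] {M : ℕ} (x : Fin M → F) : MvPolynomial (Fin M) k →+* F :=
  ((aeval x : MvPolynomial (Fin M) k →ₐ[k] F) : MvPolynomial (Fin M) k →+* F)

/-- The point `x` belongs to the affine variety `S` with the equations `G`. -/
def InS {k F : Type} [Field k] [Field F] [Algebra k F] {M : ℕ} (G : Set (MvPolynomial (Fin M) k)) (x : Fin M → F) : Prop :=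
  ∀ g ∈ G, value x g = 0

/-- The fibres of the map from `S` to the affine space of dimension `e` with the components `p` have at most `C` points, with
coordinates in any extension `F m`. -/
def IsBase {k : Type} [Field k] (F : ℕ → Type) [∀ m, Field (F m)] [∀ m, Algebra k (F m)] {M e : ℕ} (G : Set (MvPolynomial (Fin M) k))
    (p : Fin e → MvPolynomial (Fin M) k) (C : ℕ) : Prop :=
  ∀ m, 1 ≤ m → ∀ y : Fin e → F m, Nat.card {x : Fin M → F m // InS G x ∧ ∀ i, value x (p i) = y i} ≤ C

/-- The point `x` belongs to `S`, and the polynomial `Δ(x, .)` in the parameters is not zero. -/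
def Regular {k F : Type} [Field k] [Field F] [Algebra k F] {M : ℕ} {T : Type} (G : Set (MvPolynomial (Fin M) k))
    (Δ : MvPolynomial T (MvPolynomial (Fin M) k)) (x : Fin M → F) : Prop := InS G x ∧ map (value x) Δ ≠ 0

/-- The point `x` belongs to the open set `U_c` of `S`: the polynomial `Δ` does not vanish at `(x, c(x))`. -/
def InU {k F : Type} [Field k] [Field F] [Algebra k F] {M : ℕ} {T : Type} (G : Set (MvPolynomial (Fin M) k))
    (Δ : MvPolynomial T (MvPolynomial (Fin M) k)) (c : T → MvPolynomial (Fin M) k) (x : Fin M → F) : Prop :=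
  InS G x ∧ eval₂ (value x) (fun s => value x (c s)) Δ ≠ 0

/-- The linear form with the coefficients `v`. -/
noncomputable def linear {O : Type} [CommRing O] {n : ℕ} (v : Fin (n + 1) → O) : MvPolynomial (Fin (n + 1)) O := ∑ j, C (v j) * X j

/-- The forms `f j` span the forms of degree `d` that belong, for every `i`, to the ideal generated by the equations of the `i`-th
linear subspace (so for `s = 0` all forms of degree `d`). -/
def SpansLinear {O : Type} [CommRing O] {n s c : ℕ} (l : Fin s → Fin c → Fin (n + 1) → O) (d : ℕ) {ι : Type} [Fintype ι]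
    (f : ι → MvPolynomial (Fin (n + 1)) O) : Prop :=
  (∀ j, (f j).IsHomogeneous d ∧ ∀ i, f j ∈ Ideal.span (Set.range fun a => linear (l i a))) ∧
  ∀ H : MvPolynomial (Fin (n + 1)) O, H.IsHomogeneous d → (∀ i, H ∈ Ideal.span (Set.range fun a => linear (l i a))) →
    ∃ c : ι → O, H = ∑ j, C (c j) * f j

/-- Over the point `x` the linear equations `l i 0, ..., l i (c - 1)` are independent for every `i`, and the linear subspaces of
codimension `c` that they define for different `i` are different. -/
def AreSubspaces {k F : Type} [Field k] [Field F] [Algebra k F] {M n s c : ℕ} (x : Fin M → F)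
    (l : Fin s → Fin c → Fin (n + 1) → MvPolynomial (Fin M) k) : Prop :=
  (∀ i, LinearIndependent F fun a j => value x (l i a j)) ∧
  ∀ i i', i ≠ i' → ∃ y : Fin (n + 1) → F, ¬ ((∀ a, ∑ j, value x (l i a j) * y j = 0) ↔ ∀ a, ∑ j, value x (l i' a j) * y j = 0)

/-- The number of the points with coordinates in `F` of the complete intersection `V_c` over the point `x`. -/
noncomputable def points {k F : Type} [Field k] [Field F] [Algebra k F] {M n r : ℕ} {μ : Fin r → ℕ} (x : Fin M → F)
    (f : (a : Fin r) → Fin (μ a) → MvPolynomial (Fin (n + 1)) (MvPolynomial (Fin M) k)) (c : (Σ a, Fin (μ a)) → MvPolynomial (Fin M) k) : ℕ :=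
  Nat.card {P : ℙ F (Fin (n + 1) → F) // ∀ a, eval₂ (value x) P.rep (∑ j, C (c ⟨a, j⟩) * f a j) = 0}

/-- The Betti number in degree `2 a`, for `2 a ≠ D`, of a complete intersection of dimension `D`. -/
def betti (D a : ℕ) : ℕ := if 2 * a ≠ D ∧ a ≤ D then 1 else 0

/-- The eigenvalues `α m x` for the points `x` of `U_c` with coordinates in the extension `F m` of degree `m`: their number is `b`,
they are at most `q ^ (m D / 2)`, and the trace formula holds for the fibre of `V_c` over `x`. For smooth fibres these are the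
properties of the eigenvalues of Frobenius on the cohomology in degree `D` (Grothendieck, Lefschetz, Deligne). -/
structure IsFrobenius {k : Type} [Field k] (F : ℕ → Type) [∀ m, Field (F m)] [∀ m, Algebra k (F m)] {M n r : ℕ} {μ : Fin r → ℕ}
    (G : Set (MvPolynomial (Fin M) k)) (D b : ℕ) (f : (a : Fin r) → Fin (μ a) → MvPolynomial (Fin (n + 1)) (MvPolynomial (Fin M) k))
    (Δ : MvPolynomial (Σ a, Fin (μ a)) (MvPolynomial (Fin M) k)) (c : (Σ a, Fin (μ a)) → MvPolynomial (Fin M) k)
    (α : (m : ℕ) → (Fin M → F m) → Multiset ℂ) : Prop where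
  card : ∀ m, 1 ≤ m → ∀ x : Fin M → F m, InU G Δ c x → (α m x).card = b
  norm : ∀ m, 1 ≤ m → ∀ x : Fin M → F m, InU G Δ c x → ∀ a ∈ α m x, ‖a‖ ≤ Real.sqrt (Nat.card (F m)) ^ D
  trace : ∀ m, 1 ≤ m → ∀ x : Fin M → F m, InU G Δ c x →
    (points x f c : ℂ) = ∑ a ∈ range (D + 1), betti D a * (Nat.card (F m) : ℂ) ^ a + (-1) ^ D * (α m x).sum

/-- The eigenvalues on the cohomology of the fibre of `V_c` in degree `j`, where `q` is the number of the elements of the field. -/
noncomputable def cohomology (D q : ℕ) (α : Multiset ℂ) (j : ℕ) : Multiset ℂ :=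
  if j = D then α else if Even j then Multiset.replicate (betti D (j / 2)) ((q : ℂ) ^ (j / 2)) else 0

/-- The eigenvalues on the cohomology in degree `j` of a product (Kunneth). -/
noncomputable def product (H H' : ℕ → Multiset ℂ) (j : ℕ) : Multiset ℂ :=
  ∑ x ∈ antidiagonal j, (H x.1 ×ˢ H' x.2).map (fun z => z.1 * z.2)

/-- The eigenvalues on the cohomology of the power with `ν` factors. -/
noncomputable def power (H : ℕ → Multiset ℂ) : ℕ → ℕ → Multiset ℂ
  | 0, j => if j = 0 then {1} else 0
  | ν + 1, j => product H (power H ν) j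

/-- The data of a variety `Y` over `S` in the degrees `j ≤ n`: the eigenvalues `η m x j` of Frobenius on the cohomology with compact
support of the fibres over the points with coordinates in `F m` at which `Δ` is not zero are at most `β` numbers of absolute value at
most `q ^ (m j / 2)`, the numbers `Γ j` on the edge are at most `β` numbers of absolute value `q ^ (j / 2 + e)`, and the sums over
these points of the traces are the sums of their `m`-th powers, up to `C` times `q ^ (m (j / 2 + e - 1 / 2))`. -/
structure IsVariety {k : Type} [Field k] (F : ℕ → Type) [∀ m, Field (F m)] [∀ m, Algebra k (F m)] {M : ℕ} {T : Type}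
    (G : Set (MvPolynomial (Fin M) k)) (Δ : MvPolynomial T (MvPolynomial (Fin M) k)) (e n β : ℕ) (C : ℝ)
    (η : (m : ℕ) → (Fin M → F m) → ℕ → Multiset ℂ) (Γ : ℕ → Multiset ℂ) : Prop where
  weights : ∀ m, 1 ≤ m → ∀ x : Fin M → F m, Regular G Δ x → ∀ j ≤ n, (η m x j).card ≤ β ∧
    ∀ a ∈ η m x j, ‖a‖ ≤ Real.sqrt (Nat.card (F m)) ^ j
  edge : ∀ j ≤ n, (Γ j).card ≤ β ∧ ∀ g ∈ Γ j, ‖g‖ = Real.sqrt (Nat.card k) ^ j * (Nat.card k : ℝ) ^ e
  sum : ∀ m, 1 ≤ m → ∀ j ≤ n, ‖∑ᶠ x : {x : Fin M → F m // Regular G Δ x}, (η m x.1 j).sum - ((Γ j).map fun g => g ^ m).sum‖ ≤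
    C * (Real.sqrt (Nat.card (F m)) ^ j * ((Nat.card (F m) : ℝ) ^ e / Real.sqrt (Nat.card (F m))))

/-- The sum over the points of `U_c` with coordinates in `F m` of the traces on the cohomology with compact support in degree `n` of
the product of the power with `ν` factors of the fibre of `V_c` with the fibre of `Y`. -/
noncomputable def traceSum {k : Type} [Field k] (F : ℕ → Type) [∀ m, Field (F m)] [∀ m, Algebra k (F m)] {M : ℕ} {T : Type}
    (G : Set (MvPolynomial (Fin M) k)) (D ν n : ℕ) (Δ : MvPolynomial T (MvPolynomial (Fin M) k)) (c : T → MvPolynomial (Fin M) k)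
    (α : (m : ℕ) → (Fin M → F m) → Multiset ℂ) (η : (m : ℕ) → (Fin M → F m) → ℕ → Multiset ℂ) (m : ℕ) : ℂ :=
  ∑ᶠ x : {x : Fin M → F m // InU G Δ c x}, (product (power (cohomology D (Nat.card (F m)) (α m x.1)) ν) (η m x.1) n).sum

/-- The numbers `A m` are the power sums of the rational function `∏ (1 - β' u) / (∏ (1 - γ u) ∏ (1 - β u))`, where the `γ` have
absolute value `Q`, the `β` and the `β'` at most `Q / √q`, and the numbers of these numbers are at most `B` and `B'`. -/
structure IsLFunction (A : ℕ → ℂ) (q Q : ℝ) (B : ℕ) (B' : ℝ) (γ β β' : Multiset ℂ) : Prop where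
  sum : ∀ m, 1 ≤ m → A m = (γ.map fun g => g ^ m).sum + (β.map fun g => g ^ m).sum - (β'.map fun g => g ^ m).sum
  top : ∀ g ∈ γ, ‖g‖ = Q
  low : ∀ g ∈ β + β', ‖g‖ ≤ Q / Real.sqrt q
  card : γ.card ≤ B
  num : ((β + β').card : ℝ) ≤ B'

/-- The characteristic polynomial has integral coefficients. -/
def Integral (P : Multiset ℂ) : Prop := ∃ p : Polynomial ℤ, p.map (Int.castRingHom ℂ) = (P.map fun g => Polynomial.X - Polynomial.C g).prod

/-- For all forms of the `L`-function of the cohomology in degree `n` of `V_c^ν × Y` the number of the numbers `γ` on the edge is that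
of the numbers in `P`, the numbers in `R` have at most the multiplicity that they have in `P`, and if the characteristic polynomial of
the `γ` has integral coefficients, then the `γ` are the numbers in `P`. -/
def HasEdge {k : Type} [Field k] (F : ℕ → Type) [∀ m, Field (F m)] [∀ m, Algebra k (F m)] {M N r : ℕ} {μ : Fin r → ℕ}
    (G : Set (MvPolynomial (Fin M) k)) (D b ν n e B : ℕ) (B' : ℝ)
    (f : (a : Fin r) → Fin (μ a) → MvPolynomial (Fin (N + 1)) (MvPolynomial (Fin M) k))
    (Δ : MvPolynomial (Σ a, Fin (μ a)) (MvPolynomial (Fin M) k)) (c : (Σ a, Fin (μ a)) → MvPolynomial (Fin M) k)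
    (η : (m : ℕ) → (Fin M → F m) → ℕ → Multiset ℂ) (R : Finset ℂ) (P : Multiset ℂ) : Prop :=
  ∀ (α : (m : ℕ) → (Fin M → F m) → Multiset ℂ) (γ β β' : Multiset ℂ), IsFrobenius F G D b f Δ c α →
    IsLFunction (traceSum F G D ν n Δ c α η) (Nat.card k) (Real.sqrt (Nat.card k) ^ n * (Nat.card k : ℝ) ^ e) B B' γ β β' →
      γ.card = P.card ∧ (∀ g ∈ R, γ.count g ≤ P.count g) ∧ (Integral γ → γ = P)

/-- The number of the perfect matchings of `j` elements: the moments of the normal law. -/
def matchings (j : ℕ) : ℕ := if Even j then (j - 1).doubleFactorial else 0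

/-- The generating series of the Betti numbers outside the middle degree. -/
noncomputable def outer (D : ℕ) : PowerSeries ℕ := PowerSeries.mk fun b => if Even b then betti D (b / 2) else 0

/-- The number `T_a` of the products of codimension `a` on the power with `ν` factors of a complete intersection of dimension `D` of
hyperplane classes, diagonals and `z` further classes in the middle degree: `k` factors carry a class of the middle degree, `j` of
them are matched by diagonals, and the others carry one of the `z` classes or, for `D` even, the power of the hyperplane class. -/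
noncomputable def classes (D ν z a : ℕ) : ℕ :=
  ∑ k ∈ range (ν + 1), (ν.choose k * (if D * k ≤ 2 * a then PowerSeries.coeff (2 * a - D * k) (outer D ^ (ν - k)) else 0)) *
    ∑ j ∈ range (k + 1), k.choose j * matchings j * (z + if Even D then 1 else 0) ^ (k - j)

/-- The expected numbers on the edge for `V^ν × Y` in degree `n`: those in `Γ (n - 2 a)`, multiplied by `q ^ a`, `T_a` times, for all
`a ≤ n / 2`. -/
noncomputable def expected (D ν z n q : ℕ) (Γ : ℕ → Multiset ℂ) : Multiset ℂ :=
  ∑ a ∈ range (n / 2 + 1), classes D ν z a • (Γ (n - 2 * a)).map (fun g => g * (q : ℂ) ^ a)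

theorem power_eq (H : ℕ → Multiset ℂ) (ν j : ℕ) : power H ν j = Q282GP.kun H ν j := by
  induction ν generalizing j with
  | zero => rfl
  | succ ν ih =>
    unfold power product Q282GP.kun
    refine sum_congr rfl fun x _ => ?_
    rw [ih]

theorem betti_eq (D r a : ℕ) : Q282GP.oc (fun _ => 1) D r a = betti D a := by
  unfold Q282GP.oc betti
  split_ifs <;> first | rfl | omega

theorem cohomology_eq (D r q : ℕ) (α : Multiset ℂ) : Q282GP.coh (fun _ => 1) D r q α = cohomology D q α := by
  funext j
  unfold Q282GP.coh cohomology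
  rw [betti_eq]

theorem outer_eq (D r : ℕ) : Q282GP.oser (fun _ => 1) D r = outer D := by
  unfold Q282GP.oser outer
  simp only [betti_eq]

theorem points_eq {k F : Type} [Field k] [Field F] [Algebra k F] {M n r : ℕ} {μ : Fin r → ℕ} (x : Fin M → F)
    (f : (a : Fin r) → Fin (μ a) → MvPolynomial (Fin (n + 1)) (MvPolynomial (Fin M) k)) (c : (Σ a, Fin (μ a)) → MvPolynomial (Fin M) k) :
    Q282GH.zeros (Q282AE.ev x) (Q282AE.member ∅ f c) = points x f c := by
  unfold Q282GH.zeros points Q282AE.member
  refine Nat.card_congr (Equiv.subtypeEquivRight fun P => ?_)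
  constructor
  · intro h a
    exact h _ (Or.inl ⟨a, rfl⟩)
  · rintro h H (⟨a, rfl⟩ | hH)
    · exact h a
    · exact absurd hH (Set.notMem_empty _)

theorem classes_eq (D r ν z a : ℕ) : ∑ l ∈ range (ν + 1), Q282GP.TT (fun _ => 1) D r ν a l * z ^ l = classes D ν z a := by
  unfold Q282GP.TT classes
  simp only [sum_mul]
  rw [sum_comm]
  refine sum_congr rfl fun κ hκ => ?_
  rw [mem_range] at hκ
  have h1 : ∑ l ∈ range (ν + 1), Q282GP.mid (if Even D then 1 else 0) κ l * z ^ l =
      ∑ j ∈ range (κ + 1), κ.choose j * matchings j * (z + if Even D then 1 else 0) ^ (κ - j) := by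
    have h2 := Q282GP.expand (z : ℝ) (if Even D then 1 else 0) κ ν (by omega)
    exact_mod_cast h2.symm
  rw [← h1, mul_sum]
  refine sum_congr rfl fun l _ => ?_
  have h3 : Q282GP.vv (fun _ => 1) D r = if Even D then 1 else 0 := rfl
  have h4 : Q282GP.cc (fun _ => 1) D r ν a κ = ν.choose κ * (if D * κ ≤ 2 * a then PowerSeries.coeff (2 * a - D * κ) (outer D ^ (ν - κ)) else 0) := by
    unfold Q282GP.cc
    rw [outer_eq]
  rw [h3, h4, mul_assoc]

theorem expected_eq (D r ν z n q : ℕ) (Γ : ℕ → Multiset ℂ) :
    Q282UV.PP (fun _ => 1) D r ν n (Real.sqrt q) (fun j i => z ^ i • Γ j) = expected D ν z n q Γ := by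
  unfold Q282UV.PP expected
  have h1 : ∀ b ∈ range (n + 1), ¬ Even b →
      ∑ l ∈ range (ν + 1), Q282UV.TE (fun _ => 1) D r ν b l • (z ^ l • Γ (n - b)).map (fun g => g * ((Real.sqrt q ^ b : ℝ) : ℂ)) = 0 := by
    intro b _ hb
    refine sum_eq_zero fun l _ => ?_
    unfold Q282UV.TE
    rw [if_neg hb, zero_smul]
  rw [← sum_filter_add_sum_filter_not (range (n + 1)) Even, add_comm, sum_eq_zero (fun b hb => h1 b (mem_filter.1 hb).1 (mem_filter.1 hb).2), zero_add]
  have h2 : (range (n + 1)).filter Even = (range (n / 2 + 1)).image (fun a => 2 * a) := by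
    ext b
    simp only [mem_filter, mem_range, mem_image]
    constructor
    · rintro ⟨hb, c, hc⟩
      exact ⟨c, by omega, by omega⟩
    · rintro ⟨c, hc, rfl⟩
      exact ⟨by omega, even_two_mul c⟩
  rw [h2, sum_image (fun a _ b _ h => by omega)]
  refine sum_congr rfl fun a _ => ?_
  have h4 : ((Real.sqrt q ^ (2 * a) : ℝ) : ℂ) = (q : ℂ) ^ a := by
    rw [pow_mul, Real.sq_sqrt (Nat.cast_nonneg _)]
    push_cast
    rfl
  rw [← classes_eq D r ν z a]
  have h5 : ∀ (T : Finset ℕ) (u : ℕ → ℕ) (X : Multiset ℂ), (∑ l ∈ T, u l) • X = ∑ l ∈ T, u l • X := by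
    intro T u X
    induction T using Finset.induction_on with
    | empty => simp
    | insert b T hb ih => rw [sum_insert hb, sum_insert hb, add_smul, ih]
  rw [h5]
  refine sum_congr rfl fun l _ => ?_
  have h3 : Q282UV.TE (fun _ => 1) D r ν (2 * a) l = Q282GP.TT (fun _ => 1) D r ν a l := by
    unfold Q282UV.TE
    rw [if_pos (even_two_mul a), Nat.mul_div_cancel_left a two_pos]
  rw [h3, h4, Multiset.map_nsmul, mul_smul]

theorem expected_card (D ν z n q β : ℕ) (Γ : ℕ → Multiset ℂ) (h : ∀ j ≤ n, (Γ j).card ≤ β) :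
    (expected D ν z n q Γ).card ≤ (∑ a ∈ range (n / 2 + 1), classes D ν z a) * β := by
  unfold expected
  have h1 : ∀ (T : Finset ℕ) (X : ℕ → Multiset ℂ), (∑ a ∈ T, X a).card = ∑ a ∈ T, (X a).card := by
    intro T X
    induction T using Finset.induction_on with
    | empty => simp
    | insert b T hb ih => rw [sum_insert hb, sum_insert hb, Multiset.card_add, ih]
  rw [h1, sum_mul]
  refine sum_le_sum fun a _ => ?_
  rw [Multiset.card_nsmul, Multiset.card_map]
  exact Nat.mul_le_mul_left _ (h _ (Nat.sub_le _ _))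

theorem exceptional {k : Type} [Field k] (F : ℕ → Type) [∀ m, Field (F m)] [∀ m, Algebra k (F m)] {M N r : ℕ} {μ : Fin r → ℕ}
    (G : Set (MvPolynomial (Fin M) k)) (D b ν n e B : ℕ) (B' : ℝ)
    (f : (a : Fin r) → Fin (μ a) → MvPolynomial (Fin (N + 1)) (MvPolynomial (Fin M) k))
    (Δ : MvPolynomial (Σ a, Fin (μ a)) (MvPolynomial (Fin M) k)) (c : (Σ a, Fin (μ a)) → MvPolynomial (Fin M) k)
    (η : (m : ℕ) → (Fin M → F m) → ℕ → Multiset ℂ) (R : Finset ℂ) (P : Multiset ℂ)
    (h : ¬ HasEdge F G D b ν n e B B' f Δ c η R P) :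
    Q282UV.Exc F G (fun _ => 1) D r b ν n e ∅ f Δ η P (R.filter fun g => ‖g‖ = Real.sqrt (Nat.card k) ^ n * (Nat.card k : ℝ) ^ e) B B' c := by
  unfold HasEdge at h
  push Not at h
  obtain ⟨α, γ, β, β', h1, h2, h3⟩ := h
  refine ⟨α, γ, β, β', ⟨fun m hm x hx hx' => h1.card m hm x ⟨hx, hx'⟩, fun m hm x hx hx' => h1.norm m hm x ⟨hx, hx'⟩,
    fun m hm x hx hx' => ?_⟩, ⟨?_, h2.top, h2.low, h2.card, h2.num⟩, ?_⟩
  · have h4 := h1.trace m hm x ⟨hx, hx'⟩
    rw [points_eq, h4]
    congr 1
    unfold Q282GP.tt
    simp only [betti_eq]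
    push_cast
    rfl
  · intro m hm
    have h4 : traceSum F G D ν n Δ c α η m = Q282UV.traceSum F G (fun _ => 1) D r ν n Δ c α η m := by
      have h5 : ∀ H : ℕ → Multiset ℂ, power H ν = Q282GP.kun H ν := fun H => funext fun j => power_eq H ν j
      unfold traceSum Q282UV.traceSum
      simp only [h5, cohomology_eq]
      rfl
    rw [← h4]
    exact h2.sum m hm
  · rintro ⟨⟨h4, h5⟩, h6⟩
    obtain ⟨h7, h8⟩ := h3 h4 (fun g hg => by
      by_cases hgn : ‖g‖ = Real.sqrt (Nat.card k) ^ n * (Nat.card k : ℝ) ^ e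
      · exact h5 g (mem_filter.2 ⟨hg, hgn⟩)
      · have h7 : g ∉ γ := fun h8 => hgn (h2.top g h8)
        rw [Multiset.count_eq_zero_of_notMem h7]
        exact Nat.zero_le _)
    exact h8 (h6 h7)

theorem box_finite {k : Type} [Field k] [Finite k] {M : ℕ} {T : Type} [Finite T] (N : ℕ) :
    {c : T → MvPolynomial (Fin M) k | ∀ s, (c s).totalDegree ≤ N}.Finite := by
  have h1 : Finite (restrictTotalDegree (Fin M) k N) := Module.finite_of_finite k
  have h2 : ((restrictTotalDegree (Fin M) k N : Submodule k (MvPolynomial (Fin M) k)) : Set (MvPolynomial (Fin M) k)).Finite := Set.toFinite _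
  refine (Set.Finite.pi' (t := fun _ : T => ((restrictTotalDegree (Fin M) k N : Submodule k (MvPolynomial (Fin M) k)) : Set (MvPolynomial (Fin M) k)))
    fun _ => h2).subset ?_
  intro c hc s
  exact (mem_restrictTotalDegree _ _ _).2 (hc s)

/-- **Almost all complete intersections have no Tate classes in common with all smaller varieties.** -/
theorem result (k : Type) [Field k] [Finite k] (F : ℕ → Type) [∀ m, Field (F m)] [∀ m, Finite (F m)] [∀ m, Algebra k (F m)]
    (hF : ∀ m, 1 ≤ m → Module.finrank k (F m) = m)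
    -- the base `S`
    (M e : ℕ) (he : 1 ≤ e) (G : Set (MvPolynomial (Fin M) k)) (p : Fin e → MvPolynomial (Fin M) k) (C₃ : ℕ) (hS : IsBase F G p C₃)
    -- the complete intersections
    (D r s g ν : ℕ) (hD : 1 ≤ D) (hr : 1 ≤ r) (hg : 2 * g ≤ D) (hν : 1 ≤ ν) (μ d : Fin r → ℕ) (hd : ∀ a, s + 2 * ν ≤ d a + 1)
    (Δ : MvPolynomial (Σ a, Fin (μ a)) (MvPolynomial (Fin M) k)) (l : Fin s → Fin (D + r - g) → Fin (D + r + 1) → MvPolynomial (Fin M) k)
    (hl : ∀ m, 1 ≤ m → ∀ x : Fin M → F m, Regular G Δ x → AreSubspaces x l)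
    (f : (a : Fin r) → Fin (μ a) → MvPolynomial (Fin (D + r + 1)) (MvPolynomial (Fin M) k)) (hf : ∀ a, SpansLinear l (d a) (f a))
    -- the constants
    (n b B β κ : ℕ) (B₀ : ℝ) (R : Finset ℂ) (E : Finset (Multiset ℂ)) (δ : ℝ) (hδ : 0 < δ) :
    ∃ C : ℝ, ∀ (N : ℕ) (T : Type) [Fintype T] (η : T → (m : ℕ) → (Fin M → F m) → ℕ → Multiset ℂ) (Γ : T → ℕ → Multiset ℂ),
      (∀ u, IsVariety F G Δ e n β (B₀ * (N + 1) ^ κ) (η u) (Γ u)) →
      (∀ u, expected D ν (if 2 * g = D then s else 0) n (Nat.card k) (Γ u) ∈ E ∨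
        Integral (expected D ν (if 2 * g = D then s else 0) n (Nat.card k) (Γ u))) →
      (Set.ncard {c : (Σ a, Fin (μ a)) → MvPolynomial (Fin M) k | (∀ i, (c i).totalDegree ≤ N) ∧
        ¬ ∀ u, HasEdge F G D b ν n e B (B₀ * (N + 1) ^ κ) f Δ c (η u) R (expected D ν (if 2 * g = D then s else 0) n (Nat.card k) (Γ u))} : ℝ) *
        (Nat.card k : ℝ) ^ ((1 - δ) * (e * N / 2 : ℝ)) ≤
      C * Fintype.card T * Set.ncard {c : (Σ a, Fin (μ a)) → MvPolynomial (Fin M) k | ∀ i, (c i).totalDegree ≤ N} := by
  classical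
  obtain ⟨z, hz⟩ : ∃ z : ℕ, z = if 2 * g = D then s else 0 := ⟨_, rfl⟩
  rw [← hz]
  obtain ⟨B', hB'⟩ : ∃ B' : ℕ, B' = (∑ a ∈ range (n / 2 + 1), classes D ν z a) * β := ⟨_, rfl⟩
  obtain ⟨Ps, hPs⟩ : ∃ Ps : Set (Multiset ℂ), Ps = {P : Multiset ℂ | (∀ g ∈ P, ‖g‖ = Real.sqrt (Nat.card k) ^ n * (Nat.card k : ℝ) ^ e) ∧
    (P ∈ E ∨ (P.card ≤ B' ∧ Integral P))} := ⟨_, rfl⟩
  have hfin : Ps.Finite := by
    rw [hPs]
    exact Q282UV.finite_expected _ B' E
  obtain ⟨C, hC0, hC⟩ := Q282UV.almost_lin (k := k) (A := Fin r) (ι := fun a => Fin (μ a)) D hD r hr (Fintype.card_fin r) ν hν n hg l hd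
    (fun a => hf a) Δ G e he p C₃ B₀ β b B κ B₀ F hF hS (fun m hm x hx hx' => hl m hm x ⟨hx, hx'⟩) Ps hfin
    (R.filter fun g => ‖g‖ = Real.sqrt (Nat.card k) ^ n * (Nat.card k : ℝ) ^ e) (fun g hg => (mem_filter.1 hg).2) (min δ 1)
    (lt_min hδ one_pos) (min_le_right _ _)
  refine ⟨C, fun N T _ η Γ hV hP => ?_⟩
  have hq1 : (1 : ℝ) ≤ Nat.card k := by exact_mod_cast Nat.card_pos
  obtain ⟨X, hX⟩ : ∃ X : T → Set ((Σ a, Fin (μ a)) → MvPolynomial (Fin M) k), X = fun u => {c | (∀ i, (c i).totalDegree ≤ N) ∧
    Q282UV.Exc F G (fun _ => 1) D r b ν n e ∅ f Δ (η u) (expected D ν z n (Nat.card k) (Γ u))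
      (R.filter fun g => ‖g‖ = Real.sqrt (Nat.card k) ^ n * (Nat.card k : ℝ) ^ e) B (B₀ * (N + 1) ^ κ) c} := ⟨_, rfl⟩
  have h1 : ∀ u, ((X u).ncard : ℝ) * (Nat.card k : ℝ) ^ ((1 - min δ 1) * (e * N / 2 : ℝ)) ≤
      C * Set.ncard {c : (Σ a, Fin (μ a)) → MvPolynomial (Fin M) k | ∀ i, (c i).totalDegree ≤ N} := by
    intro u
    obtain ⟨hv1, hv2, hv3⟩ := hV u
    have h2 := hC N (η u) (fun m hm x hx hx' => hv1 m hm x ⟨hx, hx'⟩) (Γ u) (fun j hj => (hv2 j hj).2) hv3
    rw [← hz, expected_eq] at h2
    rw [hX]
    refine h2 ?_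
    rw [hPs]
    refine ⟨?_, ?_⟩
    · rw [← expected_eq D r]
      exact Q282UV.PP_norm _ D r ν n _ _ (Real.sqrt_nonneg _) _ fun j hj i _ g hg => (hv2 j hj).2 g (Multiset.mem_of_mem_nsmul hg)
    · rcases hP u with h3 | h3
      · exact Or.inl h3
      · refine Or.inr ⟨?_, h3⟩
        rw [hB']
        exact expected_card D ν z n _ β (Γ u) fun j hj => (hv2 j hj).1
  have h2 : Set.ncard {c : (Σ a, Fin (μ a)) → MvPolynomial (Fin M) k | (∀ i, (c i).totalDegree ≤ N) ∧
      ¬ ∀ u, HasEdge F G D b ν n e B (B₀ * (N + 1) ^ κ) f Δ c (η u) R (expected D ν z n (Nat.card k) (Γ u))} ≤ ∑ u, (X u).ncard := by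
    refine le_trans (Set.ncard_le_ncard (t := ⋃ u ∈ (univ : Finset T), X u) ?_ ?_) (Finset.set_ncard_biUnion_le univ X)
    · rintro c ⟨hc, hc'⟩
      push Not at hc'
      obtain ⟨u, hu⟩ := hc'
      refine Set.mem_biUnion (mem_coe.2 (mem_univ u)) ?_
      rw [hX]
      exact ⟨hc, exceptional F G D b ν n e B (B₀ * (N + 1) ^ κ) f Δ c (η u) R _ hu⟩
    · refine (box_finite N).subset ?_
      rintro c hc
      rw [Set.mem_iUnion₂] at hc
      obtain ⟨u, _, hu⟩ := hc
      rw [hX] at hu
      exact hu.1
  have h3 : (Nat.card k : ℝ) ^ ((1 - δ) * (e * N / 2 : ℝ)) ≤ (Nat.card k : ℝ) ^ ((1 - min δ 1) * (e * N / 2 : ℝ)) := by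
    refine Real.rpow_le_rpow_of_exponent_le hq1 (mul_le_mul_of_nonneg_right ?_ (by positivity))
    linarith [min_le_left δ 1]
  calc _ ≤ (∑ u, ((X u).ncard : ℝ)) * (Nat.card k : ℝ) ^ ((1 - min δ 1) * (e * N / 2 : ℝ)) :=
        mul_le_mul (by exact_mod_cast h2) h3 (by positivity) (by positivity)
    _ = ∑ u, ((X u).ncard : ℝ) * (Nat.card k : ℝ) ^ ((1 - min δ 1) * (e * N / 2 : ℝ)) := by rw [sum_mul]
    _ ≤ ∑ _u : T, C * Set.ncard {c : (Σ a, Fin (μ a)) → MvPolynomial (Fin M) k | ∀ i, (c i).totalDegree ≤ N} := sum_le_sum fun u _ => h1 u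
    _ = _ := by
      rw [sum_const, card_univ, nsmul_eq_mul]
      ring

end Pool.Agent.Results.MP_2a05c8_ag.AlmostAllTimesAllSmaller
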