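import Mathlib
import Pool.Agent.Q271.ZC.WdD

/-!
# On which power of an abelian variety over a finite field do exotic Tate classes appear

An abelian variety `X` over the field with `q = p ^ a` elements is given by the characteristic
polynomial `P` of its Frobenius endomorphism (`IsFrob`, theorem of Honda and Tate). Its rational Tate
module, with coefficients in an algebraically closed field `K` of characteristic zero, is a `K`-vector
space `V` with a semisimple endomorphism `F` with characteristic polynomial `P`; and `F.compLeft (Fin n)`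
is the Frobenius endomorphism of `X ^ n`. `TateGenerated` says that the Tate classes of all degrees
are generated by those of degree two, which are combinations of classes of divisors by a theorem of
Tate. The number of simple factors of `X`, up to isogeny, is the number `r` of irreducible factors of
`P`. The constants `C` and `c` are absolute.
-/

set_option autoImplicit false

namespace Pool.Agent.Results.MP_2a05c8_ag.ExoticClassesOnPowers

open Polynomial Pool.Agent.Q271.ZC

theorem result :
    (∃ C : ℝ, 0 < C ∧ ∀ (p a : ℕ) (P : ℤ[X]), p.Prime → 0 < a → IsFrob p a P →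
      Neat P → ∀ g r : ℕ, P.natDegree = 2 * g →
      {Q : ℚ[X] | Q.Monic ∧ Irreducible Q ∧ Q ∣ P.map (Int.castRingHom ℚ)}.ncard = r →
      ∀ N : ℕ,
      Real.exp (C * min (Real.sqrt (r * g)) ((g : ℝ) ^ (2 / 3 : ℝ)) * Real.log (2 * g)) ≤ N →
      ∀ (K V : Type) [Field K] [CharZero K] [IsAlgClosed K] [AddCommGroup V] [Module K V]
        [FiniteDimensional K V] (F : V →ₗ[K] V), Module.End.IsSemisimple F →
        F.charpoly = P.map (Int.castRingHom K) →
        TateGenerated (F.compLeft (Fin N)) (p ^ a) →
        ∀ n : ℕ, TateGenerated (F.compLeft (Fin n)) (p ^ a)) ∧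
    (∃ c : ℝ, 0 < c ∧ ∃ g₀ : ℕ, ∀ g ≥ g₀, ∃ (p a : ℕ) (P : ℤ[X]),
      p.Prime ∧ 0 < a ∧ IsFrob p a P ∧ Neat P ∧ P.natDegree ≤ 2 * g ∧ Irreducible P ∧
      ¬ (p : ℤ) ∣ P.coeff (P.natDegree / 2) ∧
      (∀ n : ℕ, (n : ℝ) ≤ Real.exp (c * Real.sqrt g * Real.log g) →
        ∀ (K V : Type) [Field K] [CharZero K] [IsAlgClosed K] [AddCommGroup V] [Module K V]
          [FiniteDimensional K V] (F : V →ₗ[K] V), Module.End.IsSemisimple F →
          F.charpoly = P.map (Int.castRingHom K) →
          TateGenerated (F.compLeft (Fin n)) (p ^ a)) ∧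
      ∃ n : ℕ,
        ∀ (K V : Type) [Field K] [CharZero K] [IsAlgClosed K] [AddCommGroup V] [Module K V]
          [FiniteDimensional K V] (F : V →ₗ[K] V), Module.End.IsSemisimple F →
          F.charpoly = P.map (Int.castRingHom K) →
          ¬ TateGenerated (F.compLeft (Fin n)) (p ^ a)) :=
  ⟨tate_up, tate_low⟩

end Pool.Agent.Results.MP_2a05c8_ag.ExoticClassesOnPowers
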