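import Pool.Agent.Q56.FE.Open

/-!
# The Tate conjecture for the open subvarieties of the powers of a variety over a finite field

Let `X` be a smooth projective variety over the finite field with `q = p ^ a` elements, of dimension
at most `d` and with total Betti number at most `b`, and let
`N = exactBound b d = (2 b!)! (4 (d + 1) b!) ^ (2 ^ b)`. For an open subvariety `U` of a power of `X`
let `T^i(U)` be the statement that every class in `H^(2 i)(U)(i)` which is invariant under the
Frobenius over the given field is a linear combination of the classes of cycles of codimension `i`.
The following are equivalent:

1. `T^i(U)` holds for all `i` and for all open subvarieties `U` of the single variety `X ^ N` whose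
   complement has codimension at least `i`;
2. the strong Tate conjecture holds for `X ^ N`: the generalised eigenspace of the Frobenius in
   `H^(2 j)` for the eigenvalue `q ^ j` is spanned by classes of cycles, for all `j`;
3. the strong Tate conjecture holds for all powers `X ^ n`;
4. `T^i(U)` holds for all `i` and for all open subvarieties `U` of all powers `X ^ n`.

Neither the semisimplicity of the Frobenius endomorphism nor the equality of homological and
numerical equivalence is assumed, and the number `N` depends only on the dimension and the Betti
number of `X`.

Here `W` is a Weil cohomology theory with coefficients in an algebraically closed field (for example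
`l`-adic cohomology with coefficients in an algebraic closure of `ℚ_l`), `F` is the system of the
Frobenius endomorphisms over the given field, `O` is the cohomology of the open subvarieties with its
restriction maps (its formal properties are collected in `OpenCohomology`), and `hP` says that the
characteristic polynomials of the Frobenius endomorphism of `X` are integral (Deligne), satisfy the
Riemann hypothesis (Deligne), and that the slopes times their multiplicities are integers
(Katz-Messing, Dieudonne-Manin). `pw X n` is the product of `n + 1` copies of `X`.
-/

open CategoryTheory AlgebraicGeometry

universe u v

namespace Pool.Agent.Results.MP_2a05c8_ag.OpenSubvarietiesOfPowers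

open Pool.Agent.H914 Pool.Agent.H914.VarClass Pool.Agent.H914.VarClass.Obj
  Pool.Agent.H914.WeilCohomology Pool.Agent.W534 Pool.Agent.Y133.Half Pool.Agent.Q56.FD
  Pool.Agent.Q56.FE

/-- **The open subvarieties of one power decide the Tate conjecture for the open subvarieties of
all powers.** -/
theorem result {k : Type u} [Field k] {𝒱 : VarClass k} {ops : CycleOps 𝒱}
    (W : WeilCohomology.{u, v} ops) [IsAlgClosed W.K] {p : ℕ} [Fact p.Prime] {a : ℕ} (ha : 0 < a)
    (F : FrobeniusOver W (p ^ a)) (O : OpenCohomology F) (b d : ℕ) (X : 𝒱.Obj)
    (hb : Module.finrank W.K (W.H X) ≤ b) (hd : X.dim ≤ d) (hP : HasFrobPolys F X) :
    List.TFAE [LargeOpens O (pw X (exactBound b d - 1)),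
      StrongTateAll F (pw X (exactBound b d - 1)),
      ∀ n, StrongTateAll F (pw X n), ∀ n, AllOpens O (pw X n)] :=
  open_powers ha O hb hd hP

end Pool.Agent.Results.MP_2a05c8_ag.OpenSubvarietiesOfPowers
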