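import Pool.Agent.Q45.AP.Evn
import Pool.Agent.Q45.AP.Spl
import Pool.Agent.Q45.RD.Good
import Pool.Agent.Q45.SM.Rk
import Pool.Agent.Q45.OI.K.LC
import Pool.Agent.Q45.OI.J.LEMX
import Pool.Agent.Q45.OI.J.ORTH

/-!
# Invariant classes on the open subvarieties of the product of a double cover and any variety

Let `k` be a field of characteristic different from `2`, with separable closure `k'`. For `i` in a finite
set let `D_i` be an affine curve over `k` with function field `K_i`, finite over the line, `F_i = K_i k'`,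
`B_i` the Dedekind domain of the functions on `D_i` over `k'` (the integral closure of `k'[t]` in `F_i`),
and `P_i` a monic polynomial of odd degree over `B_i`, with coefficients in `K_i` and separable, such that
the ring `S_i = B_i[x] / (P_i)` is a Dedekind domain: the branch curve `C_i : P_i = 0` in `D_i × A^1` is
regular and irreducible over `k'`. Let `X_i` be the double cover `w ^ 2 = P_i` of `D_i × A^1`, so `X_i` is
any hyperelliptic fibration over `D_i` with a section at infinity and a regular branch curve (for the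
degree three: the elliptic surfaces `w ^ 2 = x ^ 3 + a x + b`), `J_i` the Jacobian of the generic fibre
over `K_i`, and `M_i` the `ℤ_2`-module of the classes of the continuous cocycles of `Gal(Sep F_i / F_i)`
with values in the Tate module `T_2 J_i` which are locally trivial at all the maximal ideals of `B_i`, with
the action of `Gal(k' / k)`.

Let `L_i` be the field of fractions of `S_i`, and `V_i` the group of the elements of `L_iˣ` whose
fractional ideal is a square and whose norm in `F_i` is a square, modulo the squares; if the places at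
infinity of `D_i` and `C_i` are single then `V_i` is the kernel of the norm from the points of order `2` of
the Jacobian of `C_i` to those of the Jacobian of `D_i`. Suppose that the `V_i` are finite, and let `A_i` be
the action of `Gal(k' / k)` on `V_i`.

Let `N` be ANY free `ℤ_2`-module of finite rank with an action of `Gal(k' / k)`. Suppose that each `V_i` has at
least `8` elements, that the image of each `A_i` is large (the definition is below), and that for each `i` some
element of `Gal(k' / k)` acts on `V_i` with order `3` and acts trivially on the other `V_j` and on `N / 2 N`. Then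
the `M_i` are free of finite rank. Suppose that each `M_i` has an invariant symmetric bilinear form different
from zero, and that the image of `Gal(k' / k)` in `Aut (M_i)` contains an element which is `1` modulo `4` and
different from `1`. Then:

(1) Let `l` be ANY prime number, and let `W`, `U` and `R` be finite dimensional spaces over `ℚ_l` with actions of
`Gal(k' / k)`, such that `W` is compatible with one of the `M_i`, and `Hom(R × ℚ_l, U)` with `N`: there is a set
`F` of elements (the Frobenius elements), such that each element of `Gal(k' / k)` acts on the `M_i` and on `N`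
modulo `2 ^ r` as some element of `F` (Chebotarev's theorem), and the powers of the elements of `F` have the same
characteristic polynomials on `W` and on `M_i`, and on `Hom(R × ℚ_l, U)` and on `N`, with rational coefficients.
Let `S` be a subspace of `Hom(W, U) × R` which is stable under a subgroup `Δ` of finite index. If the class of
`(Φ, y)` modulo `S` is invariant under `Δ`, then `(Φ, 0)` is in `S`. So the invariant classes in ALL the quotients of
`Hom(W, U) × R` come from `R`. There is no assumption of semisimplicity.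

(2) Let `E` be an extension of `k` in `k'` which is reached from `k` by finitely many steps, each of which is a
finite extension or an extension (possibly infinite) inside the maximal abelian extension, let `i` be an index, and
let `N₂` and `R` be finitely generated `ℤ_2`-modules, `N₂` free, with actions of `Gal(k' / k)` which are built from
the actions on `N` and on the `M_j` with `j ≠ i`: for each `r` there is an `n` such that the elements which act
trivially modulo `2 ^ n` on `N` and on these `M_j` act trivially modulo `2 ^ r` on `N₂` and on `R`. For instance `N₂`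
and `R` are sums of tensor products of `N` and modules `M_j`. Let `S` be a submodule of `(M_i ⊗ N₂) × R` which is
stable under `Gal(k' / E)`. Then `S` is a submodule of finite index of `(M_i ⊗ N') × R'` for stable submodules `N'`
of `N₂` and `R'` of `R`; and if the class of `(w, y)` modulo `S` is fixed by `Gal(k' / E)`, then `2 ^ r (w, 0)` is in
`S` for some `r`.

Let `k` be a number field, `Y` a smooth projective variety over `k`, `X` the smooth projective model of `X_i`, `W`
the transcendental part of the second cohomology of `X` with coefficients in `ℚ_l(1)`, which is isomorphic to its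
dual, and `U` the cohomology of `Y` in the degree `2 m - 2` with coefficients in `ℚ_l(m - 1)`. The cohomology of
`X × Y` in the degree `2 m` with coefficients in `ℚ_l(m)` is `Hom(W, U) × R`, where `R` is built from the cohomology
of `Y` and of the product of `Y` and `D_i`. For `N` take the `2`-adic cohomology which corresponds to
`Hom(R × ℚ_l, U)`; the compatibility is Deligne's theorem. Let `O` be ANY open subvariety of `X × Y`, for instance
any open subvariety of `X_i × Z`, where `Z` is smooth and open in `Y`. By the theory of weights the invariant classes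
in `H ^ (2 m) (O, ℚ_l(m))` are invariant classes in the quotient of `Hom(W, U) × R` by the subspace `S` of the classes
with support outside `O`, and by (1) they come from `R`, for EVERY prime `l`. So the Tate conjecture for ALL the open
subvarieties of `X × Y` is a question on the product of `Y` and `D_i`.

(3) The hypotheses on the `V_i` and `N` are satisfied if each `V_i` has at least `64` elements and a nondegenerate
quadratic form `q_i` such that for each `v` in `V_i` with `q_i(v) = 1` some element of `Gal(k' / k)` acts on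
`V_i` as the transvection in `v` and acts trivially on the other `V_j` and on `N / 2 N`.
-/

set_option autoImplicit false
set_option linter.all false

open Polynomial IsDedekindDomain
open scoped Classical nonZeroDivisors

namespace Pool.Agent.Results.MP_2a05c8_ag.SubquotientsOfProducts

open Pool.Agent.Y160.SL
open Pool.Agent.TH115.GD (rs ak Sep Comp)

/-- The polynomials over `k` and `k'` are elements of the fields `K` and `F`, and `F` is generated over `K`
by the constants in `k'`. -/
structure IsConstantExtension (k k' K F : Type) [Field k] [Field k'] [Algebra k k'] [Field K]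
    [Algebra k[X] K] [Field F] [Algebra k'[X] F] [Algebra K F] : Prop where
  injective : Function.Injective (algebraMap k'[X] F)
  comp : ∀ p : k[X], algebraMap K F (algebraMap k[X] K p) =
    algebraMap k'[X] F (p.map (algebraMap k k'))
  generated : IntermediateField.adjoin K (Set.range ((algebraMap k'[X] F).comp C)) = ⊤

/-- The conditions on the polynomial `P` over `B` of the branch curve, which is the image of the
polynomial `f` over `K`: it is monic of odd degree and separable. -/
structure IsBranchPolynomial (k : Type) [Field k] {K F B : Type} [Field K] [Field F] [Algebra K F]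
    [CommRing B] [Algebra B F] (P : B[X]) (f : K[X]) : Prop where
  two : (2 : k) ≠ 0
  monic : P.Monic
  odd : Odd P.natDegree
  separable : f.Separable
  map_eq : P.map (algebraMap B F) = f.map (algebraMap K F)

section curve

/-- The elements of `Lˣ` whose fractional ideal is a square and whose norm is a square. -/
def evenGroup (F S L : Type) [Field F] [CommRing S] [IsDedekindDomain S] [Field L] [Algebra S L]
    [IsFractionRing S L] [Algebra F L] : Subgroup Lˣ where
  carrier := {z | (∃ I : FractionalIdeal S⁰ L, FractionalIdeal.spanSingleton S⁰ (z : L) = I ^ 2) ∧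
    ∃ y : F, Algebra.norm F (z : L) = y ^ 2}
  mul_mem' := fun {z w} hz hw => ⟨(Pool.Agent.Q45.GM.evS S L).mul_mem' hz.1 hw.1, by
    obtain ⟨y, hy⟩ := hz.2
    obtain ⟨y', hy'⟩ := hw.2
    exact ⟨y * y', by rw [Units.val_mul, map_mul, hy, hy', mul_pow]⟩⟩
  one_mem' := ⟨(Pool.Agent.Q45.GM.evS S L).one_mem', 1, by rw [Units.val_one, map_one, one_pow]⟩
  inv_mem' := fun {z} hz => ⟨(Pool.Agent.Q45.GM.evS S L).inv_mem' hz.1, by
    obtain ⟨y, hy⟩ := hz.2
    refine ⟨y⁻¹, ?_⟩
    have h1 : Algebra.norm F (z : L) * Algebra.norm F ((z⁻¹ : Lˣ) : L) = 1 := by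
      rw [← map_mul, ← Units.val_mul, mul_inv_cancel, Units.val_one, map_one]
    rw [hy] at h1
    rw [inv_pow]
    exact eq_inv_of_mul_eq_one_right h1⟩

/-- The squares. -/
def squares (L : Type) [Field L] : Subgroup Lˣ := (powMonoidHom 2 : Lˣ →* Lˣ).range

variable {k k' : Type} [Field k] [Field k'] [Algebra k k'] (K : Type) [Field K] {F : Type} [Field F]
  [Algebra K F] [Algebra k'[X] F] {B : Type} [CommRing B] (P : B[X]) (L : Type) [Field L]
  [Algebra F L] [Algebra (AdjoinRoot P) L]

/-- The automorphism `e` of the field `L` of the functions on the curve `P = 0` fixes `K` and the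
coordinate `x`. -/
def FixesBase (e : L ≃+* L) : Prop :=
  (∀ x : K, e (algebraMap F L (algebraMap K F x)) = algebraMap F L (algebraMap K F x)) ∧
    e (algebraMap (AdjoinRoot P) L (AdjoinRoot.root P)) =
      algebraMap (AdjoinRoot P) L (AdjoinRoot.root P)

/-- The automorphism `e` of `L` extends the automorphism `σ` of the constants. -/
def Extends (F : Type) [Field F] [Algebra k'[X] F] [Algebra F L] (σ : k' ≃ₐ[k] k') (e : L ≃+* L) :
    Prop :=
  ∀ x : k', e (algebraMap F L (algebraMap k'[X] F (C x))) =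
    algebraMap F L (algebraMap k'[X] F (C (σ x)))

/-- The automorphisms of `Lˣ` induced by the automorphisms of `L` which fix `K` and the coordinate `x` and
extend the automorphism `σ` of the constants. -/
def autUnits (F : Type) [Field F] [Algebra K F] [Algebra k'[X] F] [Algebra F L] (σ : k' ≃ₐ[k] k') :
    Set (Lˣ →* Lˣ) :=
  {φ | ∃ e : L ≃+* L, FixesBase K (F := F) P L e ∧ Extends L F σ e ∧ φ = Units.map (e : L →* L)}

end curve

/-- The group `V` is the quotient `Ev / Sq`, through the map `cl`, and `A` is the action of the group `G`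
on `V` which is induced by the endomorphisms in `R σ`, for `σ` in `G`. -/
structure IsGaloisAction {G H : Type} [Group G] [CommGroup H] (Sq Ev : Subgroup H)
    (R : G → Set (H →* H)) {V : Type} [AddCommGroup V] (cl : H → V) (A : G →* (AddMonoid.End V)ˣ) :
    Prop where
  add : ∀ z ∈ Ev, ∀ w ∈ Ev, cl (z * w) = cl z + cl w
  zero : ∀ z ∈ Ev, cl z = 0 ↔ z ∈ Sq
  surj : ∀ v, ∃ z ∈ Ev, cl z = v
  act : ∀ σ, ∃ φ ∈ R σ, ∀ z ∈ Ev, cl (φ z) = (A σ).val (cl z)

section large

variable {V : Type} [AddCommGroup V] (Γ : Subgroup (AddMonoid.End V)ˣ)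

/-- The stable subgroups of `V` are `0` and `V`. -/
def IsIrreducibleGroup : Prop :=
  ∀ U : AddSubgroup V, (∀ g ∈ Γ, ∀ v ∈ U, g.val v ∈ U) → U = ⊥ ∨ U = ⊤

/-- The endomorphism `A` is `0` or `1`. -/
def IsScalar (A : V →+ V) : Prop := (∀ v, A v = 0) ∨ ∀ v, A v = v

/-- The endomorphisms of `V` which commute with `Γ` are `0` and `1`. -/
def HasScalarCommutant : Prop :=
  ∀ A : V →+ V, (∀ g ∈ Γ, ∀ v, A (g.val v) = g.val (A v)) → IsScalar A

/-- `β` is a nondegenerate alternating form on `V`, invariant under `Γ`. -/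
structure IsAlternatingForm (β : V → V → ZMod 2) : Prop where
  add : ∀ u v w, β (u + v) w = β u w + β v w
  add' : ∀ u v w, β u (v + w) = β u v + β u w
  alt : ∀ v, β v v = 0
  nondegenerate : ∀ v, (∀ w, β v w = 0) → v = 0
  inv : ∀ g ∈ Γ, ∀ v w, β (g.val v) (g.val w) = β v w

/-- The group `U` of endomorphisms is stable under conjugation by `Γ`. -/
def IsStable (U : AddSubgroup (V →+ V)) : Prop :=
  ∀ g ∈ Γ, ∀ A ∈ U, ∀ A' : V →+ V, (∀ v, A' (g.val v) = g.val (A v)) → A' ∈ U

/-- For each invariant form `β`, a stable group of endomorphisms `A` with `β (A v) v = 0` is contained in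
`{0, 1}` or has index at most two in the group of all such endomorphisms. -/
def HasFewSkew : Prop :=
  ∀ β : V → V → ZMod 2, IsAlternatingForm Γ β → ∀ U : AddSubgroup (V →+ V),
    (∀ A ∈ U, ∀ v, β (A v) v = 0) → IsStable Γ U →
      (∀ A ∈ U, IsScalar A) ∨ Nat.card {A : V →+ V // ∀ v, β (A v) v = 0} ≤ 2 * Nat.card U

/-- The group `Γ` is large. -/
structure IsLarge : Prop where
  irreducible : IsIrreducibleGroup Γ
  scalar : ∀ Γ' : Subgroup (AddMonoid.End V)ˣ, Γ' ≤ Γ → Γ'.relIndex Γ ∣ 2 → HasScalarCommutant Γ'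
  skew : HasFewSkew Γ

/-- The polar form of `q`. -/
def polarForm (q : V → ZMod 2) (x y : V) : ZMod 2 := q (x + y) + q x + q y

/-- `q` is a nondegenerate quadratic form on `V`. -/
structure IsQuadratic (q : V → ZMod 2) : Prop where
  add : ∀ x y z, polarForm q (x + y) z = polarForm q x z + polarForm q y z
  nondegenerate : ∀ x, (∀ y, polarForm q x y = 0) → x = 0

end large

section several

variable {G ι : Type} [Group G] {V : ι → Type} [∀ i, AddCommGroup (V i)]
  (A : ∀ i, G →* (AddMonoid.End (V i))ˣ) {N : Type} [AddCommGroup N] [Module ℤ_[2] N]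
  (ν : G →* Module.End ℤ_[2] N)

/-- The element `σ` acts trivially on the `V j`, `j ≠ i`, and on `N / 2 N`. -/
def IsTrivialOff (i : ι) (σ : G) : Prop :=
  (∀ j, j ≠ i → A j σ = 1) ∧ ∀ y, ∃ z, ν σ y - y = (2 : ℤ_[2]) • z

/-- The actions of `G` on the `V i` are large and independent, also of the action on `N`. -/
structure AreIndependent : Prop where
  card : ∀ i, 8 ≤ Nat.card (V i)
  large : ∀ i, IsLarge (A i).range
  order : ∀ i, ∃ σ, A i σ ^ 3 = 1 ∧ A i σ ≠ 1 ∧ IsTrivialOff A ν i σ

/-- `V i` has at least `64` elements and a nondegenerate quadratic form `q`, and for each `v` with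
`q v = 1` some element of `G` acts as the transvection in `v` on `V i` and trivially on the other `V j` and
on `N / 2 N`. -/
def HasTransvections (i : ι) : Prop :=
  64 ≤ Nat.card (V i) ∧ ∃ q : V i → ZMod 2, IsQuadratic q ∧
    ∀ v, q v = 1 → ∃ σ, (∀ x, (A i σ).val x = if polarForm q x v = 0 then x else x + v) ∧
      IsTrivialOff A ν i σ

end several

section gen

variable {K F Ω : Type} [Field K] [Field F] [Field Ω] [Algebra K F] [Algebra F Ω] [Algebra K Ω]
  [IsScalarTower K F Ω] (f : K[X])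

/-- The sequences of cochains of `Gal(Ω / F)` with values in `J(Ω)`. -/
abbrev Cochain (F Ω : Type) [Field F] [Field Ω] [Algebra K Ω] [Algebra F Ω] (f : K[X]) : Type :=
  ℕ → (Ω ≃ₐ[F] Ω) → Jac 2 f Ω

/-- `c` is the coboundary of an element `R` of the Tate module `T_2 J`. -/
def IsTateCoboundary (c : Cochain F Ω f) : Prop :=
  ∃ R : ℕ → Jac 2 f Ω, IsTM 2 2 f R ∧ ∀ n, IsCobOf 2 f (c n) (R n)

/-- The map `κ` identifies with `M` the group of the classes of the cocycles with the property `P`: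
it is additive and surjective on these cocycles, and `κ c = 0` if and only if `c` is the coboundary of
an element of the Tate module. -/
structure IsClassMap (P : Cochain F Ω f → Prop) (M : Type) [AddCommGroup M]
    (κ : Cochain F Ω f → M) : Prop where
  surj : ∀ m, ∃ c, P c ∧ κ c = m
  add : ∀ c d, P c → P d → κ (c + d) = κ c + κ d
  zero : ∀ c, P c → (κ c = 0 ↔ IsTateCoboundary f c)

/-- `d` is the transform of the cochain `c` by the automorphism `T` of `Ω` over `K`:
`d (σ) = T (c (σ'))`, where `σ' = T⁻¹ σ T`. -/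
def IsTransform (T : Ω ≃ₐ[K] Ω) (c d : Cochain F Ω f) : Prop :=
  ∀ n (σ σ' : Ω ≃ₐ[F] Ω), (∀ x, T (σ' x) = σ (T x)) → d n σ = jm 2 f (ak T) (c n σ')

/-- The endomorphism `φ` of `M` is induced by the automorphism `T` of `Ω` over `K`. -/
def IsInduced (P : Cochain F Ω f → Prop) {M : Type} (κ : Cochain F Ω f → M) (T : Ω ≃ₐ[K] Ω)
    (φ : M → M) : Prop :=
  ∀ c d, P c → IsTransform f T c d → P d ∧ κ d = φ (κ c)

end gen

section rep

variable {G M : Type} [Group G] [AddCommGroup M] [Module ℤ_[2] M] (A : G → (M →ₗ[ℤ_[2]] M) → Prop)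
  (β : M → M → ℤ_[2])

/-- `β` is a symmetric bilinear form different from zero on `M` which is invariant under the action; `A T φ`
means that `T` in the group `G` acts on `M` as `φ`. -/
structure IsInvariantForm : Prop where
  add : ∀ x y z, β (x + y) z = β x z + β y z
  smul : ∀ (c : ℤ_[2]) x y, β (c • x) y = c * β x y
  symm : ∀ x y, β x y = β y x
  ne : ∃ x y, β x y ≠ 0
  inv : ∀ T φ, A T φ → ∀ x y, β (φ x) (φ y) = β x y

/-- Some element of the image of `G` is congruent to `1` modulo `4` and different from `1`. -/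
def HasInfiniteImage : Prop :=
  ∃ T φ, A T φ ∧ (∀ m, ∃ m', φ m - m = (4 : ℤ_[2]) • m') ∧ ∃ m, φ m ≠ m

end rep

section operators

variable {R X : Type} [CommRing R] [AddCommGroup X] [Module R X]

/-- The submodule `S` of `X` is stable under the operators in the set `O`. -/
def IsStableUnder (O : Set (Module.End R X)) (S : Submodule R X) : Prop := ∀ g ∈ O, ∀ x ∈ S, g x ∈ S

/-- The class of `x` modulo the submodule `S` of `X` is fixed by the operators in the set `O`. -/
def IsFixedModulo (O : Set (Module.End R X)) (S : Submodule R X) (x : X) : Prop := ∀ g ∈ O, g x - x ∈ S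

end operators

section index

variable {X : Type} [AddCommGroup X] [Module ℤ_[2] X]

/-- `S` is a submodule of finite index of the submodule `T` of the finitely generated module `X`. -/
def IsOfFiniteIndexIn (S T : Submodule ℤ_[2] X) : Prop :=
  S ≤ T ∧ ∃ r : ℕ, ∀ x ∈ T, (2 : ℤ_[2]) ^ r • x ∈ S

end index

section tensor

variable {G : Type} [Group G]

/-- The submodule `N'` of `N₂` is stable under the elements of the set `H`. -/
def IsStableIn {N₂ : Type} [AddCommGroup N₂] [Module ℤ_[2] N₂] (ν₂ : G →* Module.End ℤ_[2] N₂)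
    (H : Set G) (N' : Submodule ℤ_[2] N₂) : Prop :=
  ∀ σ ∈ H, ∀ y ∈ N', ν₂ σ y ∈ N'

/-- The submodule `V ⊗ N'` of `V ⊗ N₂`. -/
noncomputable def productPart (V : Type) {N₂ : Type} [AddCommGroup V] [Module ℤ_[2] V]
    [AddCommGroup N₂] [Module ℤ_[2] N₂] (N' : Submodule ℤ_[2] N₂) :
    Submodule ℤ_[2] (TensorProduct ℤ_[2] V N₂) :=
  LinearMap.range (LinearMap.lTensor V N'.subtype)

/-- The operator on `(V ⊗ N₂) × R` given by the operators on `V`, `N₂` and `R`. -/
noncomputable def sumOperator {V N₂ R : Type} [AddCommGroup V] [Module ℤ_[2] V] [AddCommGroup N₂]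
    [Module ℤ_[2] N₂] [AddCommGroup R] [Module ℤ_[2] R] (φ : V →ₗ[ℤ_[2]] V) (η : N₂ →ₗ[ℤ_[2]] N₂)
    (χ : R →ₗ[ℤ_[2]] R) : Module.End ℤ_[2] (TensorProduct ℤ_[2] V N₂ × R) :=
  (TensorProduct.map φ η).prodMap χ

/-- The operators by which the elements of the set `H` act on `(V ⊗ N₂) × R`; `A σ φ` means that `σ` acts on `V` as
`φ`. -/
def sumOperators {V N₂ R : Type} [AddCommGroup V] [Module ℤ_[2] V] [AddCommGroup N₂]
    [Module ℤ_[2] N₂] [AddCommGroup R] [Module ℤ_[2] R] (A : G → (V →ₗ[ℤ_[2]] V) → Prop)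
    (ν₂ : G →* Module.End ℤ_[2] N₂) (μ : G →* Module.End ℤ_[2] R) (H : Set G) :
    Set (Module.End ℤ_[2] (TensorProduct ℤ_[2] V N₂ × R)) :=
  {g | ∃ σ ∈ H, ∃ φ, A σ φ ∧ g = sumOperator φ (ν₂ σ) (μ σ)}

/-- `S` is a submodule of finite index of `(V ⊗ N') × R'` for stable submodules `N'` and `R'`. -/
def IsAlmostProduct {V N₂ R : Type} [AddCommGroup V] [Module ℤ_[2] V] [AddCommGroup N₂]
    [Module ℤ_[2] N₂] [AddCommGroup R] [Module ℤ_[2] R] (ν₂ : G →* Module.End ℤ_[2] N₂)
    (μ : G →* Module.End ℤ_[2] R) (H : Set G)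
    (S : Submodule ℤ_[2] (TensorProduct ℤ_[2] V N₂ × R)) : Prop :=
  ∃ (N' : Submodule ℤ_[2] N₂) (R' : Submodule ℤ_[2] R), IsStableIn ν₂ H N' ∧ IsStableIn μ H R' ∧
    IsOfFiniteIndexIn S ((productPart V N').prod R')

/-- The class of `s` in the quotient of `X × R` by `S` comes from `R`, up to multiples: `2 ^ r (s.1, 0)` is in `S`. -/
def ComesFromRight {X R : Type} [AddCommGroup X] [Module ℤ_[2] X] [AddCommGroup R] [Module ℤ_[2] R]
    (S : Submodule ℤ_[2] (X × R)) (s : X × R) : Prop :=
  ∃ r : ℕ, (2 : ℤ_[2]) ^ r • (s.1, (0 : R)) ∈ S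

/-- Each stable submodule `S` of `(V ⊗ N₂) × R` is a submodule of finite index of `(V ⊗ N') × R'` for stable
submodules `N'` and `R'`, and the fixed vectors in the quotient by `S` come from `R`, up to multiples. -/
def IsDecidedByFactors {V N₂ R : Type} [AddCommGroup V] [Module ℤ_[2] V] [AddCommGroup N₂]
    [Module ℤ_[2] N₂] [AddCommGroup R] [Module ℤ_[2] R] (A : G → (V →ₗ[ℤ_[2]] V) → Prop)
    (ν₂ : G →* Module.End ℤ_[2] N₂) (μ : G →* Module.End ℤ_[2] R) (H : Set G) : Prop :=
  ∀ S, IsStableUnder (sumOperators A ν₂ μ H) S →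
    IsAlmostProduct ν₂ μ H S ∧ ∀ s, IsFixedModulo (sumOperators A ν₂ μ H) S s → ComesFromRight S s

variable {ι : Type} {M : ι → Type} [∀ i, AddCommGroup (M i)] [∀ i, Module ℤ_[2] (M i)]
  (A : ∀ i, G → (M i →ₗ[ℤ_[2]] M i) → Prop) {N : Type} [AddCommGroup N] [Module ℤ_[2] N]
  (ν : G →* Module.End ℤ_[2] N)

/-- The operator `φ` is trivial modulo `2 ^ n`. -/
def IsTrivialModulo {X : Type} [AddCommGroup X] [Module ℤ_[2] X] (n : ℕ) (φ : X →ₗ[ℤ_[2]] X) : Prop :=
  ∀ x, ∃ x', φ x - x = (2 : ℤ_[2]) ^ n • x'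

/-- The action on `N₂` is built from the actions on `N` and on the `M j` with `j ≠ i`: for each `r` there is an
`n` such that the elements which act trivially modulo `2 ^ n` on `N` and on these `M j` act trivially modulo
`2 ^ r` on `N₂`. -/
def IsBuiltFromOthers (i : ι) {N₂ : Type} [AddCommGroup N₂] [Module ℤ_[2] N₂]
    (ν₂ : G →* Module.End ℤ_[2] N₂) : Prop :=
  ∀ r : ℕ, ∃ n : ℕ, ∀ σ : G, (∀ j, j ≠ i → ∀ φ, A j σ φ → IsTrivialModulo n φ) →
    IsTrivialModulo n (ν σ) → IsTrivialModulo r (ν₂ σ)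

/-- For each `i` and all `N₂` and `R` whose actions are built from the ones on `N` and on the `M j`, `j ≠ i`, the
stable submodules of `(M i ⊗ N₂) × R` and the fixed vectors modulo them are decided by the factors. -/
def AllAreDecided (H : Set G) : Prop :=
  ∀ (i : ι) (N₂ R : Type) [AddCommGroup N₂] [Module ℤ_[2] N₂] [Module.Finite ℤ_[2] N₂]
    [Module.Free ℤ_[2] N₂] [AddCommGroup R] [Module ℤ_[2] R] [Module.Finite ℤ_[2] R]
    (ν₂ : G →* Module.End ℤ_[2] N₂) (μ : G →* Module.End ℤ_[2] R), IsBuiltFromOthers A ν i ν₂ →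
    IsBuiltFromOthers A ν i μ → IsDecidedByFactors (A i) ν₂ μ H

/-- The elements `σ` and `τ` of `G` act in the same way on all the `M i` and on `N` modulo `2 ^ r`. -/
def ActAlike (r : ℕ) (σ τ : G) : Prop :=
  (∀ i ψ ψ', A i σ ψ → A i τ ψ' → ∀ v, ∃ v', ψ' v - ψ v = (2 : ℤ_[2]) ^ r • v') ∧
    ∀ y, ∃ z, ν τ y - ν σ y = (2 : ℤ_[2]) ^ r • z

/-- Each element of `G` acts on the `M i` and on `N` modulo `2 ^ r` as some element of `F`. -/
def IsDense (F : Set G) : Prop := ∀ (σ : G) (r : ℕ), ∃ τ ∈ F, ActAlike A ν r σ τ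

/-- The endomorphism `ψ` of the free `ℤ_2`-module `P` and the endomorphism `ω` of the space `W` over `ℚ_l`
have the same characteristic polynomial, which has rational coefficients. -/
def SameCharpoly (l : ℕ) [Fact l.Prime] {P W : Type} [AddCommGroup P] [Module ℤ_[2] P]
    [Module.Finite ℤ_[2] P] [Module.Free ℤ_[2] P] [AddCommGroup W] [Module ℚ_[l] W]
    [Module.Finite ℚ_[l] W] (ψ : P →ₗ[ℤ_[2]] P) (ω : W →ₗ[ℚ_[l]] W) : Prop :=
  ∃ p : ℚ[X], p.map (algebraMap ℚ ℚ_[2]) = ψ.charpoly.map (algebraMap ℤ_[2] ℚ_[2]) ∧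
    p.map (algebraMap ℚ ℚ_[l]) = ω.charpoly

end tensor

section hom

variable {K W U R : Type} [Field K] [AddCommGroup W] [Module K W] [AddCommGroup U] [Module K U]
  [AddCommGroup R] [Module K R]

/-- The operator `Φ ↦ h ∘ Φ ∘ f` on `Hom (W, U)`. -/
def homMap (h : U →ₗ[K] U) (f : W →ₗ[K] W) : (W →ₗ[K] U) →ₗ[K] (W →ₗ[K] U) :=
  LinearMap.llcomp K W U U h ∘ₗ LinearMap.lcomp K U f

/-- The operator `m × 1` on `R × K`. -/
def withOne (m : R →ₗ[K] R) : (R × K) →ₗ[K] (R × K) := m.prodMap LinearMap.id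

/-- The operator on `Hom (W, U) × R` given by operators on `W`, `U` and `R`. -/
def homOperator (f : W →ₗ[K] W) (h : U →ₗ[K] U) (m : R →ₗ[K] R) : Module.End K ((W →ₗ[K] U) × R) :=
  (homMap h f).prodMap m

variable {G : Type} [Group G]

/-- The operators by which the elements of the set `H` act on `Hom (W, U) × R`. -/
def homOperators (ω : G →* Module.End K W) (υ : G →* Module.End K U) (μ : G →* Module.End K R)
    (H : Set G) : Set (Module.End K ((W →ₗ[K] U) × R)) :=
  {g | ∃ δ ∈ H, g = homOperator (ω δ⁻¹) (υ δ) (μ δ)}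

/-- If the class of `(x, y)` modulo a stable subspace `S` of `X × R` is fixed, then `(x, 0)` is in `S`: the fixed
vectors in all the quotients of `X × R` come from `R`. -/
def FixedComeFromRight {X : Type} [AddCommGroup X] [Module K X] (O : Set (Module.End K (X × R))) :
    Prop :=
  ∀ S, IsStableUnder O S → ∀ s, IsFixedModulo O S s → (s.1, (0 : R)) ∈ S

end hom

section primes

variable {G ι : Type} [Group G] {M : ι → Type} [∀ i, AddCommGroup (M i)] [∀ i, Module ℤ_[2] (M i)]
  (A : ∀ i, G → (M i →ₗ[ℤ_[2]] M i) → Prop) {N : Type} [AddCommGroup N] [Module ℤ_[2] N]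
  (ν : G →* Module.End ℤ_[2] N) [∀ i, Module.Finite ℤ_[2] (M i)] [∀ i, Module.Free ℤ_[2] (M i)]
  [Module.Finite ℤ_[2] N] [Module.Free ℤ_[2] N]

/-- The representation `ω` over `ℚ_l` is compatible with the representation on `M i`, and the representation on
`Hom (R × ℚ_l, U)` given by `μ` and `υ` with the one on `N`, at the elements of `F`: the powers of these elements
have the same characteristic polynomials, with rational coefficients. -/
structure IsCompatible (l : ℕ) [Fact l.Prime] (F : Set G) (i : ι) {W U R : Type} [AddCommGroup W]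
    [Module ℚ_[l] W] [Module.Finite ℚ_[l] W] [AddCommGroup U] [Module ℚ_[l] U]
    [Module.Finite ℚ_[l] U] [AddCommGroup R] [Module ℚ_[l] R] [Module.Finite ℚ_[l] R]
    (ω : G →* Module.End ℚ_[l] W) (υ : G →* Module.End ℚ_[l] U) (μ : G →* Module.End ℚ_[l] R) :
    Prop where
  left : ∀ τ ∈ F, ∀ (m : ℕ) (ψ : M i →ₗ[ℤ_[2]] M i), A i (τ ^ m) ψ → SameCharpoly l ψ (ω (τ ^ m))
  right : ∀ τ ∈ F, ∀ m : ℕ,
    SameCharpoly l (ν (τ ^ m)) (homMap (υ (τ ^ m)) (withOne (μ (τ ^ m)⁻¹)))

/-- For EVERY prime `l` and all representations `W`, `U`, `R` over `ℚ_l`, such that `W` is compatible with the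
representation on `M i` and `Hom (R × ℚ_l, U)` with the one on `N` at a dense set `F` of elements, and each subgroup
`Δ` of finite index: the vectors fixed by `Δ` in the quotients of `Hom (W, U) × R` come from `R`. -/
def InvariantsComeFromR : Prop :=
  ∀ (l : ℕ) [Fact l.Prime] (F : Set G) (i : ι) (W U R : Type) [AddCommGroup W] [Module ℚ_[l] W]
    [Module.Finite ℚ_[l] W] [AddCommGroup U] [Module ℚ_[l] U] [Module.Finite ℚ_[l] U]
    [AddCommGroup R] [Module ℚ_[l] R] [Module.Finite ℚ_[l] R]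
    (ω : G →* Module.End ℚ_[l] W) (υ : G →* Module.End ℚ_[l] U) (μ : G →* Module.End ℚ_[l] R),
    IsDense A ν F → IsCompatible A ν l F i ω υ μ → ∀ Δ : Subgroup G, Δ.FiniteIndex →
      FixedComeFromRight (homOperators ω υ μ (Δ : Set G))

end primes

section tower

variable {k k' : Type} [Field k] [Field k'] [Algebra k k']

/-- The extension `E` of `k` in `k'` is reached from `k` by finitely many steps, each of which is a finite
extension or an extension inside the maximal abelian extension. -/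
inductive IsTower : IntermediateField k k' → Prop
  | base : IsTower ⊥
  | finite (E E' : IntermediateField k k') : FiniteDimensional k E' → IsTower E → IsTower (E ⊔ E')
  | abelian (E E' : IntermediateField k k') :
      (∀ σ τ : k' ≃ₐ[k] k', σ ∈ E.fixingSubgroup → τ ∈ E.fixingSubgroup →
        ∀ x ∈ E', σ (τ x) = τ (σ x)) → IsTower E → IsTower E'

end tower

section sel

variable {K F : Type} [Field K] [Field F] [Algebra K F] (B : Type) [CommRing B] [IsDedekindDomain B]
  [Algebra B F] [IsFractionRing B F] (f : K[X])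

/-- The restriction of the cochain `c` to the completion of `F` at every maximal ideal of the Dedekind
domain `B` with field of fractions `F` is a coboundary. -/
def IsSelmer (c : (Sep F ≃ₐ[F] Sep F) → Jac 2 f (Sep F)) : Prop :=
  ∀ v : HeightOneSpectrum B, LocTriv 2 f (Comp B F v) (Sep (Comp B F v)) c

/-- `c` is a continuous cocycle of `Gal(Sep F / F)` with values in the Tate module `T_2 J` which is
locally trivial at all the maximal ideals of the Dedekind domain `B` with field of fractions `F`; its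
component with values in `J[2 ^ n]` is `c n`. -/
def IsSelmerCocycle (c : Cochain F (Sep F) f) : Prop :=
  IsTC 2 2 f c ∧ ∀ n, IsSelmer B f (c n)

/-- The constants of `Sep F`. -/
noncomputable def const {k' : Type} [Field k'] [Algebra k'[X] F] (x : k') : Sep F :=
  algebraMap F (Sep F) (algebraMap k'[X] F (C x))

/-- The automorphism `σ` of `k'` over `k` acts on the module of the classes as `φ`: some automorphism of
`Sep F` over `K` which extends `σ` induces `φ`. -/
def ActsAs {k k' : Type} [Field k] [Field k'] [Algebra k k'] [Algebra k'[X] F] {M : Type}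
    [AddCommGroup M] [Module ℤ_[2] M] (κ : Cochain F (Sep F) f → M) (σ : k' ≃ₐ[k] k')
    (φ : M →ₗ[ℤ_[2]] M) : Prop :=
  ∃ T : Sep F ≃ₐ[K] Sep F, (∀ x : k', T (const (F := F) x) = const (F := F) (σ x)) ∧
    IsInduced f (IsSelmerCocycle B f) κ T φ

end sel

/-- The modules `M i` of the classes are free of finite rank, and with the actions on them they have the
property `R`. -/
def Concl {k k' ι : Type} [Field k] [Field k'] [Algebra k k'] {K F : ι → Type} [∀ i, Field (K i)]
    [∀ i, Field (F i)] [∀ i, Algebra (K i) (F i)] [∀ i, Algebra k'[X] (F i)] (B : ι → Type)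
    [∀ i, CommRing (B i)] [∀ i, IsDedekindDomain (B i)] [∀ i, Algebra (B i) (F i)]
    [∀ i, IsFractionRing (B i) (F i)] (f : ∀ i, (K i)[X])
    (R : ∀ (M : ι → Type) [∀ i, AddCommGroup (M i)] [∀ i, Module ℤ_[2] (M i)]
      [∀ i, Module.Finite ℤ_[2] (M i)] [∀ i, Module.Free ℤ_[2] (M i)],
      (∀ i, (k' ≃ₐ[k] k') → (M i →ₗ[ℤ_[2]] M i) → Prop) → Prop) : Prop :=
  ∃ (M : ι → Type) (_ : ∀ i, AddCommGroup (M i)) (_ : ∀ i, Module ℤ_[2] (M i))
    (_ : ∀ i, Module.Finite ℤ_[2] (M i)) (_ : ∀ i, Module.Free ℤ_[2] (M i))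
    (κ : ∀ i, Cochain (F i) (Sep (F i)) (f i) → M i),
    (∀ i, IsClassMap (f i) (IsSelmerCocycle (B i) (f i)) (M i) (κ i)) ∧
    (∀ i, ∀ σ : k' ≃ₐ[k] k', ∃ φ : M i →ₗ[ℤ_[2]] M i, ActsAs (B i) (f i) (κ i) σ φ) ∧
    R M fun i => ActsAs (B i) (f i) (κ i)

/-- (1), (2) The theorem on the invariant classes in quotients and on the stable submodules. -/
def Criterion : Prop :=
  ∀ (k k' ι : Type) [Field k] [Field k'] [Algebra k k'] [IsSepClosure k k'] [Fintype ι]
    (K F B L V : ι → Type) [∀ i, Field (K i)] [∀ i, Algebra k[X] (K i)] [∀ i, Field (F i)]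
    [∀ i, Algebra k'[X] (F i)] [∀ i, Algebra (K i) (F i)] [∀ i, CommRing (B i)]
    [∀ i, IsDedekindDomain (B i)] [∀ i, Algebra k'[X] (B i)] [∀ i, Algebra (B i) (F i)]
    [∀ i, IsScalarTower k'[X] (B i) (F i)] [∀ i, IsFractionRing (B i) (F i)]
    [∀ i, IsIntegralClosure (B i) k'[X] (F i)] (P : ∀ i, (B i)[X]) (f : ∀ i, (K i)[X])
    [∀ i, IsDedekindDomain (AdjoinRoot (P i))] [∀ i, Field (L i)]
    [∀ i, Algebra (AdjoinRoot (P i)) (L i)] [∀ i, IsFractionRing (AdjoinRoot (P i)) (L i)]
    [∀ i, Algebra (F i) (L i)] [∀ i, AddCommGroup (V i)] [∀ i, Finite (V i)] (cl : ∀ i, (L i)ˣ → V i)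
    (A : ∀ i, (k' ≃ₐ[k] k') →* (AddMonoid.End (V i))ˣ) (N : Type) [AddCommGroup N]
    [Module ℤ_[2] N] [Module.Finite ℤ_[2] N] [Module.Free ℤ_[2] N]
    (ν : (k' ≃ₐ[k] k') →* Module.End ℤ_[2] N),
    (∀ i, IsConstantExtension k k' (K i) (F i)) →
    (∀ i, IsBranchPolynomial k (F := F i) (P i) (f i)) →
    (∀ i, ∀ b : B i, algebraMap (F i) (L i) (algebraMap (B i) (F i) b) =
      algebraMap (AdjoinRoot (P i)) (L i) (AdjoinRoot.of (P i) b)) →
    (∀ i, IsGaloisAction (squares (L i)) (evenGroup (F i) (AdjoinRoot (P i)) (L i))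
      (autUnits (K i) (P i) (L i) (F i)) (cl i) (A i)) →
    AreIndependent A ν →
      Concl (K := K) (F := F) B f fun M _ _ _ _ act =>
        ∀ β : ∀ i, M i → M i → ℤ_[2], (∀ i, IsInvariantForm (act i) (β i)) →
          (∀ i, HasInfiniteImage (act i)) →
            (∀ E : IntermediateField k k', IsTower E → AllAreDecided act ν E.fixingSubgroup) ∧
              InvariantsComeFromR act ν

/-- (3) The criterion with transvections. -/
def Transvections : Prop :=
  ∀ (G ι : Type) [Group G] (V : ι → Type) [∀ i, AddCommGroup (V i)] [∀ i, Finite (V i)]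
    (A : ∀ i, G →* (AddMonoid.End (V i))ˣ) (N : Type) [AddCommGroup N] [Module ℤ_[2] N]
    (ν : G →* Module.End ℤ_[2] N), (∀ i, HasTransvections A ν i) → AreIndependent A ν

open Pool.Agent.Q45.GM (SelT clsOf clsOf_surj clsOf_add clsOf_zero rho rho_cls rho_mul rho_one
  evS sqS cs cs_apply rho_congr)

section conv

variable {K F : Type} [Field K] [Field F] [Algebra K F] {B : Type} [CommRing B] [IsDedekindDomain B]
  [Algebra B F] [IsFractionRing B F] {f : K[X]}

theorem toTC {c : Cochain F (Sep F) f} (h : IsTC 2 2 f c) : Pool.Agent.Y160.SQ.IsTC 2 2 f c :=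
  ⟨fun n => ⟨(h.coc n).lc, (h.coc n).mul⟩, h.zero, h.step⟩

theorem ofTC {c : Cochain F (Sep F) f} (h : Pool.Agent.Y160.SQ.IsTC 2 2 f c) : IsTC 2 2 f c :=
  ⟨fun n => ⟨(h.coc n).lc, (h.coc n).mul⟩, h.zero, h.step⟩

/-- The classes of the cocycles. -/
theorem classMap : IsClassMap f (IsSelmerCocycle B f) (SelT (F := F) 2 B f 2) (clsOf B f) where
  surj m := by
    obtain ⟨c, ⟨h1, h2⟩, h3⟩ := clsOf_surj B f m
    exact ⟨c, ⟨ofTC h1, h2⟩, h3⟩
  add c d hc hd := clsOf_add B f (toTC hc.1) hc.2 (toTC hd.1) hd.2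
  zero c hc := by
    refine (clsOf_zero B f (toTC hc.1) hc.2).trans ⟨?_, ?_⟩
    · rintro ⟨R, hR, h⟩
      exact ⟨R, ⟨hR.zero, hR.step⟩, h⟩
    · rintro ⟨R, hR, h⟩
      exact ⟨R, ⟨hR.zero, hR.step⟩, h⟩

end conv


section acts

variable {k k' K F : Type} [Field k] [Field k'] [Algebra k k'] [IsSepClosed k']
  [Algebra.IsSeparable k k'] [Field K] [Algebra k[X] K] [Field F] [Algebra k'[X] F] [Algebra K F]
  {B : Type} [CommRing B] [IsDedekindDomain B] [Algebra k'[X] B] [Algebra B F]
  [IsScalarTower k'[X] B F] [IsFractionRing B F] [IsIntegralClosure B k'[X] F]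

theorem induced_iff (hF' : Pool.Agent.Q45.TW.IsGeom k k' K F) (f : K[X])
    (T : Sep F ≃ₐ[K] Sep F)
    (φ : SelT (F := F) 2 B f 2 →ₗ[ℤ_[2]] SelT (F := F) 2 B f 2) :
    IsInduced f (IsSelmerCocycle B f) (clsOf B f) T φ ↔ φ = rho B hF' f T := by
  constructor
  · intro h
    refine LinearMap.ext fun m => ?_
    obtain ⟨c, ⟨hc, hcs⟩, rfl⟩ := clsOf_surj B f m
    have hcj := Pool.Agent.Q45.GM.lf_T B hF' f T
    have hd : IsTransform f T c (fun n σ => jm 2 f (ak T)
        (c n ((Pool.Agent.Q45.GM.lf B hF' f T).conj σ))) := by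
      intro n σ σ' hσ
      have h5 : (Pool.Agent.Q45.GM.lf B hF' f T).conj σ = σ' := by
        refine AlgEquiv.ext fun x => T.injective ?_
        rw [hσ]
        have h6 := (Pool.Agent.Q45.GM.lf B hF' f T).T_conj σ x
        rwa [hcj] at h6
      have h8 : ∀ ρ : Sep F ≃ₐ[F] Sep F, ρ = σ' →
          jm 2 f (ak T) (c n ρ) = jm 2 f (ak T) (c n σ') := by
        rintro ρ rfl
        rfl
      exact h8 _ h5
    have h7 := (h c _ ⟨ofTC hc, hcs⟩ hd).2
    rw [← h7]
    exact (rho_cls B hF' f T hc hcs hd).2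
  · rintro rfl c d hc hd
    obtain ⟨⟨h4, h5⟩, h6⟩ := rho_cls B hF' f T (toTC hc.1) hc.2 hd
    exact ⟨⟨ofTC h4, h5⟩, h6⟩

theorem acts_iff (hF' : Pool.Agent.Q45.TW.IsGeom k k' K F) (f : K[X])
    (σ : k' ≃ₐ[k] k') (T : Sep F ≃ₐ[K] Sep F) (hT : ∀ x : k', T (cs k' F x) = cs k' F (σ x))
    (φ : SelT (F := F) 2 B f 2 →ₗ[ℤ_[2]] SelT (F := F) 2 B f 2) :
    ActsAs B f (clsOf B f) σ φ ↔ φ = rho B hF' f T := by
  constructor
  · rintro ⟨T', hT', h⟩
    rw [(induced_iff hF' f T' φ).1 h]
    refine LinearMap.ext fun m => rho_congr B hF' f T' T (fun x => ?_) m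
    rw [hT]
    exact hT' x
  · rintro rfl
    exact ⟨T, hT, (induced_iff hF' f T _).2 rfl⟩

end acts

section convert

variable {V : Type} [AddCommGroup V] [Module (ZMod 2) V]

/-- An additive automorphism is linear. -/
noncomputable def toLin (g : (AddMonoid.End V)ˣ) : V ≃ₗ[ZMod 2] V :=
  { AddMonoidHom.toZModLinearMap 2 (g.val : V →+ V) with
    invFun := fun v => (g⁻¹).val v
    left_inv := fun v => by
      show (g⁻¹).val (g.val v) = v
      have h1 := DFunLike.congr_fun (Units.inv_mul g) v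
      exact h1
    right_inv := fun v => by
      show g.val ((g⁻¹).val v) = v
      have h1 := DFunLike.congr_fun (Units.mul_inv g) v
      exact h1 }

theorem toLin_apply (g : (AddMonoid.End V)ˣ) (v : V) : toLin g v = g.val v := rfl

/-- A linear automorphism is additive. -/
def toAdd : (V ≃ₗ[ZMod 2] V) →* (AddMonoid.End V)ˣ where
  toFun e := ⟨e.toLinearMap.toAddMonoidHom, e.symm.toLinearMap.toAddMonoidHom,
    AddMonoidHom.ext fun v => e.apply_symm_apply v, AddMonoidHom.ext fun v => e.symm_apply_apply v⟩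
  map_one' := rfl
  map_mul' _ _ := rfl

theorem toAdd_apply (e : V ≃ₗ[ZMod 2] V) (v : V) : (toAdd e).val v = e v := rfl

theorem toAdd_toLin (g : (AddMonoid.End V)ˣ) : toAdd (toLin g) = g :=
  Units.ext (AddMonoidHom.ext fun v => rfl)

theorem toLin_toAdd (e : V ≃ₗ[ZMod 2] V) : toLin (toAdd e) = e := LinearEquiv.ext fun v => rfl

/-- The group of linear automorphisms. -/
def linGroup (Γ : Subgroup (AddMonoid.End V)ˣ) : Subgroup (V ≃ₗ[ZMod 2] V) := Γ.comap toAdd

theorem mem_linGroup {Γ : Subgroup (AddMonoid.End V)ˣ} {e : V ≃ₗ[ZMod 2] V} :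
    e ∈ linGroup Γ ↔ toAdd e ∈ Γ := Iff.rfl

theorem map_linGroup (Γ : Subgroup (AddMonoid.End V)ˣ) : (linGroup Γ).map toAdd = Γ :=
  Subgroup.map_comap_eq_self_of_surjective (fun g => ⟨toLin g, toAdd_toLin g⟩) Γ

/-- The groups of additive and of linear endomorphisms. -/
def toAddSub (U : Submodule (ZMod 2) (V →ₗ[ZMod 2] V)) : AddSubgroup (V →+ V) where
  carrier := {A | ∃ B ∈ U, ∀ v, A v = B v}
  add_mem' := by
    rintro _ _ ⟨B, hB, h⟩ ⟨B', hB', h'⟩
    exact ⟨B + B', U.add_mem hB hB', fun v => by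
      rw [AddMonoidHom.add_apply, LinearMap.add_apply, h, h']⟩
  zero_mem' := ⟨0, U.zero_mem, fun v => rfl⟩
  neg_mem' := by
    rintro _ ⟨B, hB, h⟩
    exact ⟨-B, U.neg_mem hB, fun v => by
      rw [AddMonoidHom.neg_apply, LinearMap.neg_apply, h]⟩

/-- The groups of additive and of linear endomorphisms. -/
def toLinSub (U : AddSubgroup (V →+ V)) : Submodule (ZMod 2) (V →ₗ[ZMod 2] V) :=
  AddSubgroup.toZModSubmodule 2 (U.comap
    { toFun := fun B : V →ₗ[ZMod 2] V => B.toAddMonoidHom
      map_zero' := rfl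
      map_add' := fun _ _ => rfl })

theorem mem_toLinSub {U : AddSubgroup (V →+ V)} {B : V →ₗ[ZMod 2] V} :
    B ∈ toLinSub U ↔ B.toAddMonoidHom ∈ U := Iff.rfl

/-- The bijection between the additive and the linear endomorphisms. -/
def endEquiv : (V →+ V) ≃ (V →ₗ[ZMod 2] V) where
  toFun A := AddMonoidHom.toZModLinearMap 2 A
  invFun B := B.toAddMonoidHom
  left_inv A := AddMonoidHom.ext fun v => rfl
  right_inv B := LinearMap.ext fun v => rfl

theorem card_toLinSub (U : AddSubgroup (V →+ V)) : Nat.card (toLinSub U) = Nat.card U := by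
  refine Nat.card_congr (Equiv.subtypeEquiv endEquiv.symm fun B => ?_)
  exact mem_toLinSub

theorem card_toAddSub (U : Submodule (ZMod 2) (V →ₗ[ZMod 2] V)) :
    Nat.card (toAddSub U) = Nat.card U := by
  refine Nat.card_congr (Equiv.subtypeEquiv endEquiv fun A => ?_)
  constructor
  · rintro ⟨B, hB, h⟩
    have h1 : endEquiv A = B := LinearMap.ext fun v => h v
    rw [h1]
    exact hB
  · intro h
    exact ⟨endEquiv A, h, fun v => rfl⟩

theorem card_skew (β : V →ₗ[ZMod 2] V →ₗ[ZMod 2] ZMod 2) :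
    Nat.card {A : V →+ V // ∀ v, β (A v) v = 0} = Nat.card (Pool.Agent.Q45.OI.skewEnd β) :=
  Nat.card_congr (Equiv.subtypeEquiv endEquiv fun A => Iff.rfl)

theorem scalar_iff (A : V →+ V) (B : V →ₗ[ZMod 2] V) (h : ∀ v, A v = B v) :
    IsScalar A ↔ B = 0 ∨ B = 1 := by
  constructor
  · rintro (h1 | h1)
    · left
      exact LinearMap.ext fun v => by rw [← h, h1]; rfl
    · right
      exact LinearMap.ext fun v => by rw [← h, h1]; rfl
  · rintro (rfl | rfl)
    · left
      exact fun v => h v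
    · right
      exact fun v => h v

variable [Module.Finite (ZMod 2) V] {Γ : Subgroup (AddMonoid.End V)ˣ}

theorem finrank_le (U W : Submodule (ZMod 2) (V →ₗ[ZMod 2] V)) :
    Nat.card U ≤ 2 * Nat.card W ↔
      Module.finrank (ZMod 2) U ≤ Module.finrank (ZMod 2) W + 1 := by
  rw [Module.natCard_eq_pow_finrank (K := ZMod 2) (V := U),
    Module.natCard_eq_pow_finrank (K := ZMod 2) (V := W), Nat.card_zmod, ← pow_succ']
  exact Nat.pow_le_pow_iff_right (by norm_num)

theorem large_lin (h : IsLarge Γ) : Pool.Agent.Q45.OI.IsLarge (linGroup Γ) where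
  irr U hU := by
    rcases h.irreducible U.toAddSubgroup (fun g hg v hv => hU (toLin g)
      (by rw [mem_linGroup, toAdd_toLin]; exact hg) v hv) with h1 | h1
    · left
      ext v
      exact SetLike.ext_iff.1 h1 v
    · right
      ext v
      exact SetLike.ext_iff.1 h1 v
  scal Γ' hΓ' hi A hA := by
    have h1 := h.scalar (Γ'.map toAdd) (by
      rintro _ ⟨e, he, rfl⟩
      exact hΓ' he) (by
      have h2 := Pool.Agent.Q45.OI.relIndex_map_dvd (toAdd (V := V)) Γ' (linGroup Γ) hΓ'
      rw [map_linGroup] at h2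
      exact h2.trans hi) A.toAddMonoidHom (by
      rintro _ ⟨e, he, rfl⟩ v
      exact hA e he v)
    exact (scalar_iff A.toAddMonoidHom A fun v => rfl).1 h1
  skew β halt hnd hinv U hU hst := by
    rcases h.skew (fun v w => β v w) ⟨fun u v w => by rw [map_add]; rfl, fun u v w => by rw [map_add],
        halt, hnd, fun g hg v w => hinv (toLin g) (by rw [mem_linGroup, toAdd_toLin]; exact hg) v w⟩
        (toAddSub U) (by
          rintro A ⟨B, hB, hAB⟩ v
          rw [hAB]
          exact hU hB v) (by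
          rintro g hg A ⟨B, hB, hAB⟩ A' hA'
          refine ⟨AddMonoidHom.toZModLinearMap 2 A', ?_, fun v => rfl⟩
          refine hst (toLin g) (by rw [mem_linGroup, toAdd_toLin]; exact hg) B hB _ fun v => ?_
          have h2 := hA' v
          rw [hAB] at h2
          exact h2) with h1 | h1
    · left
      intro B hB
      exact (scalar_iff B.toAddMonoidHom B fun v => rfl).1 (h1 _ ⟨B, hB, fun v => rfl⟩)
    · right
      rw [card_skew, card_toAddSub] at h1
      exact (finrank_le _ _).1 h1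

theorem large_add (h : Pool.Agent.Q45.OI.IsLarge (linGroup Γ)) : IsLarge Γ where
  irreducible U hU := by
    rcases h.irr (AddSubgroup.toZModSubmodule 2 U) (fun e he v hv => hU (toAdd e) he v hv)
      with h1 | h1
    · left
      ext v
      exact SetLike.ext_iff.1 h1 v
    · right
      ext v
      exact SetLike.ext_iff.1 h1 v
  scalar Γ' hΓ' hi A hA := by
    have h1 := h.scal (linGroup Γ') (fun e he => hΓ' he) (by
      have h2 : (linGroup Γ').relIndex (linGroup Γ) = Γ'.relIndex Γ := by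
        have h3 := Subgroup.relIndex_comap Γ' (toAdd (V := V)) (linGroup Γ)
        rw [map_linGroup] at h3
        exact h3
      rw [h2]
      exact hi) (AddMonoidHom.toZModLinearMap 2 A) (fun e he v => hA (toAdd e) he v)
    exact (scalar_iff A _ fun v => rfl).2 h1
  skew := by
    intro β hβ U hU hst
    have h01 : ∀ c : ZMod 2, c = 0 ∨ c = 1 := by decide
    have hz1 : ∀ w, β 0 w = 0 := by
      intro w
      have := hβ.add 0 0 w
      rw [add_zero] at this
      exact left_eq_add.1 this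
    have hz2 : ∀ w, β w 0 = 0 := by
      intro w
      have := hβ.add' w 0 0
      rw [add_zero] at this
      exact left_eq_add.1 this
    let β' : V →ₗ[ZMod 2] V →ₗ[ZMod 2] ZMod 2 := LinearMap.mk₂ (ZMod 2) β hβ.add
      (fun c v w => by
        rcases h01 c with rfl | rfl
        · rw [zero_smul, zero_smul, hz1]
        · rw [one_smul, one_smul]) hβ.add'
      (fun c v w => by
        rcases h01 c with rfl | rfl
        · rw [zero_smul, zero_smul, hz2]
        · rw [one_smul, one_smul])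
    have hβ' : ∀ v w, β' v w = β v w := fun v w => rfl
    rcases h.skew β' hβ.alt hβ.nondegenerate (fun e he v w => hβ.inv (toAdd e) he v w)
        (toLinSub U) (fun B hB v => hU _ hB v) (fun e he B hB B' hB' =>
          hst (toAdd e) he _ hB _ hB') with h1 | h1
    · left
      intro A hA
      exact (scalar_iff A (AddMonoidHom.toZModLinearMap 2 A) fun v => rfl).2 (h1 _ hA)
    · right
      have h2 := (finrank_le _ _).2 h1
      rw [card_toLinSub, ← card_skew] at h2
      exact h2

end convert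

/-- The form as a bilinear map. -/
theorem exists_form {G M : Type} [Group G] [AddCommGroup M] [Module ℤ_[2] M]
    {A : G → (M →ₗ[ℤ_[2]] M) → Prop} {β : M → M → ℤ_[2]} (h : IsInvariantForm A β) :
    ∃ β' : M →ₗ[ℤ_[2]] M →ₗ[ℤ_[2]] ℤ_[2], ∀ x y, β' x y = β x y :=
  ⟨LinearMap.mk₂ ℤ_[2] β h.add h.smul (fun x y z => by rw [h.symm, h.add, h.symm y, h.symm z])
    (fun c x y => by rw [h.symm, h.smul, h.symm y]; rfl), fun x y => rfl⟩

theorem lems : Pool.Agent.Q45.OI.Lems :=
  ⟨Pool.Agent.Q45.OI.KLA.lie1, Pool.Agent.Q45.OI.KLA.lie2, Pool.Agent.Q45.OI.KLA.lie3,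
    Pool.Agent.Q45.OI.KLA.lie4, Pool.Agent.Q45.OI.KLA.lie5, Pool.Agent.Q45.OI.JORTH.main,
    Pool.Agent.Q45.OI.JLEMX.main, Pool.Agent.Q45.OI.KLC.red⟩

/-- The towers give chains of subgroups. -/
theorem tower_chain {k k' : Type} [Field k] [Field k'] [Algebra k k'] [IsSepClosed k']
    [Algebra.IsSeparable k k'] {E : IntermediateField k k'} (h : IsTower E) :
    Pool.Agent.Q45.OI.Chain (E.fixingSubgroup) := by
  induction h with
  | base =>
    rw [IntermediateField.fixingSubgroup_bot]
    exact Pool.Agent.Q45.OI.Chain.top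
  | finite E E' hfin _ ih =>
    haveI : FiniteDimensional k E' := hfin
    obtain ⟨N, hN, hpow⟩ := Pool.Agent.Q45.OI.exists_exp_gal E'
    refine Pool.Agent.Q45.OI.Chain.pow N hN (fun σ hσ => ?_) ih
    rw [IntermediateField.fixingSubgroup_sup]
    exact ⟨pow_mem hσ N, hpow σ⟩
  | abelian E E' hab _ ih =>
    refine Pool.Agent.Q45.OI.Chain.comm (fun σ hσ τ hτ => ?_) ih
    rw [IntermediateField.mem_fixingSubgroup_iff]
    intro x hx
    have h1 := hab σ⁻¹ τ⁻¹ (inv_mem hσ) (inv_mem hτ) x hx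
    have h2 : (σ * τ * σ⁻¹ * τ⁻¹) x = σ (τ (σ⁻¹ (τ⁻¹ x))) := rfl
    rw [h2, h1]
    have h3 : ∀ (ρ : k' ≃ₐ[k] k') (y : k'), ρ (ρ⁻¹ y) = y := fun ρ y => by
      rw [← AlgEquiv.mul_apply, mul_inv_cancel]
      rfl
    rw [h3, h3]

section abs

variable {G ι : Type} [Group G] {M : ι → Type} [∀ i, AddCommGroup (M i)]
  [∀ i, Module ℤ_[2] (M i)] [∀ i, Module.Free ℤ_[2] (M i)] [∀ i, Module.Finite ℤ_[2] (M i)]
  {N : Type} [AddCommGroup N] [Module ℤ_[2] N]

/-- The theorem for abstract modules. -/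
theorem decided_of_joint (act : ∀ i, G → (M i →ₗ[ℤ_[2]] M i) → Prop) (ν : G →* Module.End ℤ_[2] N)
    (Q : Subgroup G) (r : ∀ i, G →* (Module.End ℤ_[2] (M i))ˣ)
    (hiff : ∀ i σ ψ, act i σ ψ ↔ ψ = (r i σ : Module.End ℤ_[2] (M i)))
    (β : ∀ i, M i →ₗ[ℤ_[2]] M i →ₗ[ℤ_[2]] ℤ_[2]) (hsym : ∀ i x y, β i x y = β i y x)
    (hnd : ∀ i x, (∀ y, β i x y = 0) → x = 0) (h3 : ∀ i, 3 ≤ Module.finrank ℤ_[2] (M i)) (j : ℕ)
    (hj : ∀ α : ∀ i, M i ≃ₗ[ℤ_[2]] M i, (∀ i x y, β i (α i x) (α i y) = β i x y) →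
      (∀ i m, ∃ m', α i m - m = (2 : ℤ_[2]) ^ j • m') → ∀ n : ℕ, ∃ σ ∈ Q,
        (∀ i m, ∃ m', (r i σ : Module.End ℤ_[2] (M i)) m - α i m = (2 : ℤ_[2]) ^ n • m') ∧
          ∀ y, ∃ z, ν σ y - y = (2 : ℤ_[2]) ^ n • z) : AllAreDecided act ν (Q : Set G) := by
  intro i N₂ R _ _ _ _ _ _ _ ν₂ μ hν₂ hμ S hS₀
  let ρ : G →* Module.End ℤ_[2] (M i) := (Units.coeHom _).comp (r i)
  have hρ : ∀ σ, ρ σ = (r i σ : Module.End ℤ_[2] (M i)) := fun σ => rfl
  have hap : ∃ j : ℕ, ∀ α : M i ≃ₗ[ℤ_[2]] M i, (∀ x y, β i (α x) (α y) = β i x y) →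
      (∀ m, ∃ m', α m - m = (2 : ℤ_[2]) ^ j • m') →
      ∀ n : ℕ, ∃ T ∈ Q, (∀ m, ∃ m', ρ T m - α m = (2 : ℤ_[2]) ^ n • m') ∧
        (∀ y, ∃ z, ν₂ T y - y = (2 : ℤ_[2]) ^ n • z) ∧
          ∀ y, ∃ z, μ T y - y = (2 : ℤ_[2]) ^ n • z := by
    refine ⟨j, fun α hα hα1 n => ?_⟩
    obtain ⟨n₁, hn₁⟩ := hν₂ n
    obtain ⟨n₂, hn₂⟩ := hμ n
    have hpow : ∀ {X : Type} [AddCommGroup X] [Module ℤ_[2] X] {a b : ℕ} (x : X), a ≤ b →
        ∃ x', (2 : ℤ_[2]) ^ b • x = (2 : ℤ_[2]) ^ a • x' := by
      intro X _ _ a b x hab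
      exact ⟨(2 : ℤ_[2]) ^ (b - a) • x, by rw [smul_smul, ← pow_add, Nat.add_sub_cancel' hab]⟩
    let fam : ∀ l, M l ≃ₗ[ℤ_[2]] M l := Function.update (fun l => LinearEquiv.refl ℤ_[2] (M l)) i α
    have hfi : fam i = α := Function.update_self _ _ _
    have hfo : ∀ l, l ≠ i → fam l = LinearEquiv.refl ℤ_[2] (M l) := fun l hl =>
      Function.update_of_ne hl _ _
    obtain ⟨σ, hσ, h5, h6⟩ := hj fam (fun l x y => by
      by_cases hl : l = i
      · subst hl
        rw [hfi]
        exact hα x y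
      · rw [hfo l hl]
        rfl) (fun l m => by
      by_cases hl : l = i
      · subst hl
        rw [hfi]
        exact hα1 m
      · refine ⟨0, ?_⟩
        rw [hfo l hl, smul_zero]
        exact sub_self m) (max n (max n₁ n₂))
    have hoth : ∀ e : ℕ, e ≤ max n (max n₁ n₂) → ∀ l, l ≠ i → ∀ φ, act l σ φ →
        ∀ m, ∃ m', φ m - m = (2 : ℤ_[2]) ^ e • m' := by
      intro e he l hl φ hφ m
      obtain ⟨m', hm'⟩ := h5 l m
      rw [hfo l hl, ← (hiff l σ φ).1 hφ] at hm'
      obtain ⟨x', hx'⟩ := hpow m' he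
      exact ⟨x', hm'.trans hx'⟩
    have hN : ∀ e : ℕ, e ≤ max n (max n₁ n₂) → ∀ y, ∃ z, ν σ y - y = (2 : ℤ_[2]) ^ e • z := by
      intro e he y
      obtain ⟨z, hz⟩ := h6 y
      obtain ⟨x', hx'⟩ := hpow z he
      exact ⟨x', hz.trans hx'⟩
    refine ⟨σ, hσ, fun m => ?_, hn₁ σ (hoth n₁ (by omega)) (hN n₁ (by omega)),
      hn₂ σ (hoth n₂ (by omega)) (hN n₂ (by omega))⟩
    obtain ⟨m', hm'⟩ := h5 i m
    rw [hfi] at hm'
    obtain ⟨x', hx'⟩ := hpow m' (le_max_left n (max n₁ n₂))
    exact ⟨x', hm'.trans hx'⟩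
  have hS' : ∀ g ∈ Q, ∀ s ∈ S, (TensorProduct.map (ρ g) (ν₂ g) s.1, μ g s.2) ∈ S :=
    fun g hg s hs => hS₀ _ ⟨g, hg, _, (hiff i g _).2 rfl, rfl⟩ s hs
  constructor
  · obtain ⟨N', R', h7, h8, h9, t, h10⟩ := Pool.Agent.Q45.SM.exists_prod ρ ν₂ (β i) (hsym i) (hnd i)
      (h3 i) μ hap hS'
    have h11 : productPart (M i) N' = Pool.Agent.Q45.SM.part (M i) N' :=
      Pool.Agent.Q45.SM.range_eq N'
    refine ⟨N', R', h7, h8, ?_, t, ?_⟩
    · rw [h11]
      exact h9
    · rw [h11]
      exact h10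
  · intro s hw
    exact Pool.Agent.Q45.SM.fix_prod ρ ν₂ (β i) (hsym i) (hnd i) (h3 i) μ hap hS' (w := s.1)
      (y := s.2) fun g hg => hw _ ⟨g, hg, _, (hiff i g _).2 rfl, rfl⟩

variable [Fintype ι] [Module.Free ℤ_[2] N] [Module.Finite ℤ_[2] N]

/-- The theorem for all primes, for abstract modules. -/
theorem allPrimes_of_joint (act : ∀ i, G → (M i →ₗ[ℤ_[2]] M i) → Prop) (ν : G →* Module.End ℤ_[2] N)
    (H : Set G) (β : ∀ i, M i → M i → ℤ_[2]) (r : ∀ i, G →* (Module.End ℤ_[2] (M i))ˣ)
    (hiff : ∀ i σ ψ, act i σ ψ ↔ ψ = (r i σ : Module.End ℤ_[2] (M i)))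
    (β' : ∀ i, M i →ₗ[ℤ_[2]] M i →ₗ[ℤ_[2]] ℤ_[2]) (hβ' : ∀ i x y, β' i x y = β i x y)
    (hsym : ∀ i x y, β i x y = β i y x) (hnd : ∀ i x, (∀ y, β' i x y = 0) → x = 0)
    (heven : ∀ i, Even (Module.finrank ℤ_[2] (M i))) (j : ℕ)
    (hj : ∀ α : ∀ i, M i ≃ₗ[ℤ_[2]] M i, (∀ i x y, β' i (α i x) (α i y) = β' i x y) →
      (∀ i m, ∃ m', α i m - m = (2 : ℤ_[2]) ^ j • m') → ∀ n : ℕ, ∃ σ ∈ H,
        (∀ i m, ∃ m', (r i σ : Module.End ℤ_[2] (M i)) m - α i m = (2 : ℤ_[2]) ^ n • m') ∧
          ∀ y, ∃ z, ν σ y - y = (2 : ℤ_[2]) ^ n • z) : InvariantsComeFromR act ν := by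
  intro l hl F i W U R _ _ _ _ _ _ _ _ _ ω υ μ hF hcomp Δ hΔ S hS s hs
  obtain ⟨α, hα, hα1, r', hr⟩ := Pool.Agent.Q45.RD.exists_good β'
    (fun i x y => by rw [hβ', hβ', hsym]) hnd heven j
  obtain ⟨σ, hσ, h6, h7⟩ := hj α hα hα1 r'
  obtain ⟨τ, hτS, hτ⟩ := hF σ r'
  have h8 := hr N (fun i => (r i τ : Module.End ℤ_[2] (M i))) (ν τ) (ν τ⁻¹) (fun y => by
      rw [← Module.End.mul_apply, ← map_mul, inv_mul_cancel, map_one]
      rfl) (fun y => by
      rw [← Module.End.mul_apply, ← map_mul, mul_inv_cancel, map_one]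
      rfl) (fun i v => by
      obtain ⟨a, ha⟩ := hτ.1 i _ _ ((hiff i σ _).2 rfl) ((hiff i τ _).2 rfl) v
      obtain ⟨b, hb⟩ := h6 i v
      exact ⟨a + b, by rw [smul_add, ← ha, ← hb]; abel⟩) (fun y => by
      obtain ⟨a, ha⟩ := hτ.2 y
      obtain ⟨b, hb⟩ := h7 y
      exact ⟨a + b, by rw [smul_add, ← ha, ← hb]; abel⟩)
  obtain ⟨m, hm, -, hmΔ⟩ := Subgroup.exists_pow_mem_of_index_ne_zero hΔ.index_ne_zero τ
  obtain ⟨p, hp, hp'⟩ := hcomp.left τ hτS m _ ((hiff i (τ ^ m) _).2 rfl)
  obtain ⟨q, hq, hq'⟩ := hcomp.right τ hτS m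
  have hN : ∀ Ψ : M i →ₗ[ℤ_[2]] N, (∀ x, Ψ ((r i (τ ^ m) : Module.End ℤ_[2] (M i)) x) =
      ν (τ ^ m) (Ψ x)) → Ψ = 0 := by
    intro Ψ hΨ
    let e := MultilinearMap.ofSubsingleton ℤ_[2] (M i) N (0 : Fin 1)
    have h9 := h8 1 (fun _ => i) one_pos (fun a b _ => Subsingleton.elim a b) m hm (e Ψ) (fun x => by
      have h10 := hΨ (x 0)
      show Ψ (((r i τ : Module.End ℤ_[2] (M i)) ^ m) (x 0)) = ((ν τ) ^ m) (Ψ (x 0))
      rw [← map_pow, ← h10, map_pow, Units.val_pow_eq_pow_val])
    ext y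
    exact congrArg (fun Θ : MultilinearMap ℤ_[2] (fun _ : Fin 1 => M i) N => Θ fun _ => y) h9
  have hinv : ∀ {X : Type} [AddCommGroup X] [Module ℚ_[l] X] (ξ : G →* Module.End ℚ_[l] X) (x : X),
      ξ (τ ^ m)⁻¹ (ξ (τ ^ m) x) = x := by
    intro X _ _ ξ x
    rw [← Module.End.mul_apply, ← map_mul, inv_mul_cancel, map_one]
    rfl
  have hinv' : ∀ {X : Type} [AddCommGroup X] [Module ℚ_[l] X] (ξ : G →* Module.End ℚ_[l] X) (x : X),
      ξ (τ ^ m) (ξ (τ ^ m)⁻¹ x) = x := by
    intro X _ _ ξ x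
    rw [← Module.End.mul_apply, ← map_mul, mul_inv_cancel, map_one]
    rfl
  exact Pool.Agent.Q45.AP.fixed_of_noHom (ω (τ ^ m)) (ω (τ ^ m)⁻¹) (υ (τ ^ m)) (μ (τ ^ m))
    (μ (τ ^ m)⁻¹) (hinv ω) (hinv' μ) (fun Ψ hΨ => Pool.Agent.Q45.AP.hom_zero_of_same
      (r i (τ ^ m) : Module.End ℤ_[2] (M i)) (ν (τ ^ m)) hN (ω (τ ^ m))
      (homMap (υ (τ ^ m)) (withOne (μ (τ ^ m)⁻¹))) hp hp' hq hq' Ψ hΨ)
    (fun t ht => hS _ ⟨_, hmΔ, rfl⟩ t ht) (Φ := s.1) (y := s.2) (hs _ ⟨_, hmΔ, rfl⟩)

end abs

theorem criterion : Criterion := by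
  intro k k' ι _ _ _ hk' _ K F B L V _ _ _ _ _ _ _ _ _ _ _ _ P f _ _ _ _ _ _ _ cl A N _ _ _ _ ν
    hF hP hL hV hA
  haveI : IsSepClosed k' := hk'.sep_closed
  haveI : Algebra.IsSeparable k k' := hk'.separable
  have hF' : ∀ i, Pool.Agent.Q45.TW.IsGeom k k' (K i) (F i) := fun i =>
    ⟨(hF i).injective, (hF i).comp, (hF i).generated⟩
  have h2V : ∀ i, ∀ v : V i, 2 • v = 0 := by
    intro i v
    obtain ⟨z, hz, rfl⟩ := (hV i).surj v
    have h1 : z * z ∈ squares (L i) := ⟨z, pow_two z⟩
    rw [two_nsmul, ← (hV i).add z hz z hz, (hV i).zero _ (mul_mem hz hz)]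
    exact h1
  letI im : ∀ i, Module (ZMod 2) (V i) := fun i => AddCommGroup.zmodModule (h2V i)
  haveI : ∀ i, Module.Finite (ZMod 2) (V i) := fun i => Module.Finite.of_finite
  -- the action as a linear action
  have hlin : ∀ i, ∃ a : (k' ≃ₐ[k] k') →* (V i ≃ₗ[ZMod 2] V i), ∀ σ v, a σ v = (A i σ).val v :=
    fun i => ⟨{ toFun := fun σ => toLin (A i σ)
                map_one' := LinearEquiv.ext fun v => by
                  rw [map_one]
                  rfl
                map_mul' := fun σ τ => LinearEquiv.ext fun v => by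
                  rw [map_mul]
                  rfl }, fun σ v => rfl⟩
  choose a ha using hlin
  -- one double cover
  have hone : ∀ i, Module.Finite ℤ_[2] (SelT (F := F i) 2 (B i) (f i) 2) ∧
      Module.Free ℤ_[2] (SelT (F := F i) 2 (B i) (f i) 2) ∧
      (∀ τ : k' ≃ₐ[k] k', ∃ T : Sep (F i) ≃ₐ[K i] Sep (F i),
        ∀ x, T (cs k' (F i) x) = cs k' (F i) (τ x)) ∧
      ∃ κ : SelT (F := F i) 2 (B i) (f i) 2 →+ V i,
        (∀ m, κ m = 0 ↔ ∃ m', m = (2 : ℤ_[2]) • m') ∧
        ∀ (T : Sep (F i) ≃ₐ[K i] Sep (F i)) (τ : k' ≃ₐ[k] k'),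
          (∀ x, T (cs k' (F i) x) = cs k' (F i) (τ x)) →
            ∀ m, κ (rho (B i) (hF' i) (f i) T m) = a i τ (κ m) := by
    intro i
    refine Pool.Agent.Q45.OI.gen_dat (B i) (hF' i) (hP i).two (hP i).map_eq (hP i).monic
      (hP i).odd (hP i).separable (hL i) (Ev := evenGroup (F i) (AdjoinRoot (P i)) (L i))
      (fun z => Iff.rfl) (hV i).add (hV i).zero (hV i).surj (fun τ v => a i τ v) fun τ => ?_
    obtain ⟨_, ⟨e, he1, he2, rfl⟩, he3⟩ := (hV i).act τ
    exact ⟨e, he1, he2, fun z hz => by rw [ha]; exact he3 z hz⟩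
  haveI i1 : ∀ i, Module.Finite ℤ_[2] (SelT (F := F i) 2 (B i) (f i) 2) :=
    fun i => (hone i).1
  haveI i2 : ∀ i, Module.Free ℤ_[2] (SelT (F := F i) 2 (B i) (f i) 2) :=
    fun i => (hone i).2.1
  choose ext hext using fun i => (hone i).2.2.1
  choose κ hκ1 hκ2 using fun i => (hone i).2.2.2
  have hind := fun i (σ : k' ≃ₐ[k] k') => acts_iff (B := B i) (hF' i) (f i) σ (ext i σ) (hext i σ)
  let r : ∀ i, (k' ≃ₐ[k] k') →*
      (Module.End ℤ_[2] (SelT (F := F i) 2 (B i) (f i) 2))ˣ := fun i =>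
    { toFun := fun σ => Pool.Agent.Q45.OI.rhoU (B i) (hF' i) (f i) (ext i σ)
      map_one' := Units.ext (LinearMap.ext fun m => by
        show rho (B i) (hF' i) (f i) (ext i 1) m = m
        rw [rho_congr (B i) (hF' i) (f i) (ext i 1) 1 (fun x => by rw [hext]; rfl) m]
        exact rho_one (B i) (hF' i) (f i) m)
      map_mul' := fun σ τ => Units.ext (LinearMap.ext fun m => by
        show rho (B i) (hF' i) (f i) (ext i (σ * τ)) m =
          rho (B i) (hF' i) (f i) (ext i σ) (rho (B i) (hF' i) (f i) (ext i τ) m)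
        rw [← rho_mul]
        refine rho_congr (B i) (hF' i) (f i) (ext i (σ * τ)) (ext i σ * ext i τ) (fun x => ?_) m
        have h1 : (ext i σ * ext i τ) (cs k' (F i) x) = ext i σ (ext i τ (cs k' (F i) x)) := rfl
        rw [h1, hext, hext, hext]
        rfl) }
  refine ⟨fun i => SelT (F := F i) 2 (B i) (f i) 2, inferInstance, inferInstance, i1, i2,
    fun i => clsOf (B i) (f i), fun i => classMap,
    fun i σ => ⟨rho (B i) (hF' i) (f i) (ext i σ), (hind i σ _).2 rfl⟩, ?_⟩
  intro β hβ hinf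
  choose β' hβ' using fun i => exists_form (hβ i)
  have hrange : ∀ i, (a i).range = linGroup (A i).range := by
    intro i
    ext g
    rw [mem_linGroup]
    constructor
    · rintro ⟨σ, rfl⟩
      refine ⟨σ, Units.ext (AddMonoidHom.ext fun v => ?_)⟩
      exact (ha i σ v).symm
    · rintro ⟨τ, hτ⟩
      refine ⟨τ, LinearEquiv.ext fun v => ?_⟩
      have h1 := congrArg (fun u : (AddMonoid.End (V i))ˣ => u.val v) hτ
      exact (ha i τ v).trans h1
  have hfam : Pool.Agent.Q45.OI.FamN r ν.toHomUnits κ a β' := by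
    refine ⟨hκ1, fun i σ m => hκ2 i (ext i σ) σ (hext i σ) m, fun i => ?_, hA.card, fun i => ?_,
      fun i => ?_, fun i x y => ?_, fun i σ x y => ?_, fun i => ?_⟩
    · rw [hrange]
      exact large_lin (hA.large i)
    · obtain ⟨σ, h1, h2, h3, h4⟩ := hA.order i
      refine ⟨σ, LinearEquiv.ext fun v => ?_, fun h4 => h2 ?_, fun j hj => LinearEquiv.ext fun v => ?_,
        h4⟩
      · have h4 : (a i σ ^ 3) v = a i σ (a i σ (a i σ v)) := rfl
        rw [h4, ha, ha, ha]
        have h5 := congrArg (fun u : (AddMonoid.End (V i))ˣ => u.val v) h1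
        exact h5
      · refine Units.ext (AddMonoidHom.ext fun v => ?_)
        have h5 := LinearEquiv.congr_fun h4 v
        exact (ha i σ v).symm.trans h5
      · have h5 := congrArg (fun u : (AddMonoid.End (V j))ˣ => u.val v) (h3 j hj)
        exact (ha j σ v).trans h5
    · intro h0
      obtain ⟨x, y, hxy⟩ := (hβ i).ne
      apply hxy
      rw [← hβ', h0]
      rfl
    · rw [hβ', hβ', (hβ i).symm]
    · rw [hβ', hβ']
      exact (hβ i).inv σ _ ((hind i σ _).2 rfl) x y
    · obtain ⟨σ, φ, hφ, h4, m, hm⟩ := hinf i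
      rw [(hind i σ φ).1 hφ] at h4 hm
      refine ⟨σ, (Pool.Agent.Q45.OI.cg_iff _ _ _).2 fun m => ?_, fun h5 => hm ?_⟩
      · obtain ⟨m', hm'⟩ := h4 m
        exact ⟨m', hm'.trans (congrArg (fun c : ℤ_[2] => c • m') (by norm_num : (4 : ℤ_[2]) = 2 ^ 2))⟩
      · have h6 := congrArg (fun u : (Module.End ℤ_[2] (SelT (F := F i) 2 (B i) (f i) 2))ˣ =>
          u.val m) h5
        exact h6
  refine ⟨fun E hE => ?_, ?_⟩
  swap
  · obtain ⟨j, hj⟩ := hfam.joint lems (tower_chain (IsTower.base (k := k) (k' := k')))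
    exact allPrimes_of_joint (fun i => ActsAs (B i) (f i) (clsOf (B i) (f i))) ν
      ((⊥ : IntermediateField k k').fixingSubgroup) β r (fun i σ ψ => hind i σ ψ) β' hβ'
      (fun i => (hβ i).symm) (fun i => Pool.Agent.Q45.AP.FamN.nondeg hfam i)
      (fun i => Pool.Agent.Q45.AP.FamN.even hfam i) j hj
  obtain ⟨j, hj⟩ := hfam.joint lems (tower_chain hE)
  exact decided_of_joint (fun i => ActsAs (B i) (f i) (clsOf (B i) (f i))) ν E.fixingSubgroup r
    (fun i σ ψ => hind i σ ψ) β' (fun i x y => by rw [hβ', hβ', (hβ i).symm])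
    (fun i => Pool.Agent.Q45.AP.FamN.nondeg hfam i)
    (fun i => Pool.Agent.Q45.SM.FamN.three hfam i) j hj

theorem transvections : Transvections := by
  intro G ι _ V _ _ A N _ _ ν h
  have hss : ∀ c : ZMod 2, c + c = 0 := by decide
  have h01 : ∀ c : ZMod 2, c = 0 ∨ c = 1 := by decide
  have key : ∀ i, IsLarge (A i).range ∧
      ∃ σ, A i σ ^ 3 = 1 ∧ A i σ ≠ 1 ∧ IsTrivialOff A ν i σ := by
    intro i
    obtain ⟨h6, q, hq, ht⟩ := h i
    have h2V : ∀ v : V i, 2 • v = 0 := by
      intro v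
      rw [two_nsmul]
      refine hq.nondegenerate _ fun w => ?_
      rw [hq.add, hss]
    letI : Module (ZMod 2) (V i) := AddCommGroup.zmodModule h2V
    haveI : Module.Finite (ZMod 2) (V i) := Module.Finite.of_finite
    have hsym : ∀ x y, polarForm q x y = polarForm q y x := by
      intro x y
      unfold polarForm
      rw [add_comm x y]
      ring
    have hpz : ∀ y, polarForm q 0 y = 0 := by
      intro y
      have h1 := hq.add 0 0 y
      rw [add_zero] at h1
      exact left_eq_add.1 h1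
    have hq0 : q 0 = 0 := by
      have h1 := hpz 0
      unfold polarForm at h1
      rw [add_zero, hss, zero_add] at h1
      exact h1
    let Q : QuadraticForm (ZMod 2) (V i) := QuadraticMap.ofPolar q
      (fun a x => by
        rcases h01 a with rfl | rfl
        · rw [zero_smul, hq0]; simp
        · rw [one_smul]; simp)
      (fun x x' y => by
        have h1 := hq.add x x' y
        unfold polarForm at h1
        unfold QuadraticMap.polar
        have e1 := hss (q (x + x'))
        have e2 := hss (q y)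
        have e3 := hss (q (x + y))
        have e4 := hss (q (x' + y))
        have e5 := hss (q x)
        have e6 := hss (q x')
        linear_combination h1 - e1 + e5 + e6 + e2)
      (fun a x y => by
        rcases h01 a with rfl | rfl
        · rw [zero_smul, zero_smul]
          unfold QuadraticMap.polar
          rw [zero_add, hq0]
          ring
        · rw [one_smul, one_smul])
    have hQ : ∀ v, Q v = q v := fun v => rfl
    have hpol : ∀ x y, QuadraticMap.polar Q x y = polarForm q x y := by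
      intro x y
      unfold QuadraticMap.polar polarForm
      rw [hQ, hQ, hQ]
      have e1 := hss (q x)
      have e2 := hss (q y)
      linear_combination -e1 - e2
    have hfr : 6 ≤ Module.finrank (ZMod 2) (V i) := by
      rw [Module.natCard_eq_pow_finrank (K := ZMod 2) (V := V i), Nat.card_zmod] at h6
      exact (Nat.pow_le_pow_iff_right (by norm_num : 1 < 2)).1 (by
        show 2 ^ 6 ≤ 2 ^ _
        exact h6)
    have hnd : ∀ v, (∀ w, QuadraticMap.polar Q v w = 0) → v = 0 :=
      fun v hv => hq.nondegenerate v fun w => by rw [← hpol]; exact hv w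
    have htr : ∀ v, q v = 1 → ∃ σ, (∀ x, toLin (A i σ) x = x + QuadraticMap.polar Q x v • v) ∧
        IsTrivialOff A ν i σ := by
      intro v hv
      obtain ⟨σ, h1, h2⟩ := ht v hv
      refine ⟨σ, fun x => ?_, h2⟩
      rw [toLin_apply, h1, hpol]
      rcases h01 (polarForm q x v) with h1 | h1
      · rw [if_pos h1, h1, zero_smul, add_zero]
      · rw [if_neg (by rw [h1]; decide), h1, one_smul]
    constructor
    · refine large_add (Pool.Agent.Q45.OI.JLARGE.main (V i) Q hfr hnd (linGroup (A i).range) ?_)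
      intro v hv
      obtain ⟨σ, h1, h2⟩ := htr v hv
      exact ⟨toLin (A i σ), by rw [mem_linGroup, toAdd_toLin]; exact ⟨σ, rfl⟩, h1⟩
    · obtain ⟨u, v, hu, hv, huv⟩ := Pool.Agent.Q45.OI.exists_three Q hfr hnd
      obtain ⟨σ, hσ1, hσ2⟩ := htr u hu
      obtain ⟨τ, hτ1, hτ2⟩ := htr v hv
      obtain ⟨h1, h2⟩ := huv _ _ hσ1 hτ1
      refine ⟨σ * τ, ?_, ?_, fun j hj => by rw [map_mul, hσ2.1 j hj, hτ2.1 j hj, one_mul],
        fun y => ?_⟩
      · refine Units.ext (AddMonoidHom.ext fun w => ?_)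
        have h3 := LinearEquiv.congr_fun h1 w
        rw [map_mul]
        exact h3
      · intro h3
        apply h2
        refine LinearEquiv.ext fun w => ?_
        have h4 := congrArg (fun u : (AddMonoid.End (V i))ˣ => u.val w) h3
        simp only [map_mul] at h4
        exact h4
      · obtain ⟨z, hz⟩ := hτ2.2 y
        obtain ⟨w, hw⟩ := hσ2.2 (ν τ y)
        refine ⟨w + z, ?_⟩
        rw [smul_add, ← hw, ← hz, map_mul, Module.End.mul_apply]
        abel
  exact ⟨fun i => le_trans (by norm_num) (h i).1, fun i => (key i).1, fun i => (key i).2⟩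

/-- **The invariant classes in the quotients of the cohomology of the product of a double cover and any variety, at
every prime, and the stable submodules.** -/
theorem result : Criterion ∧ Transvections := ⟨criterion, transvections⟩

end Pool.Agent.Results.MP_2a05c8_ag.SubquotientsOfProducts
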